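import Pool.Agent.V7H83.SC.S7
import Pool.Agent.V7H89.GL.Lind

/-!
# Criteria for subconvexity: the families of L-functions
-/

set_option autoImplicit false

open Complex Set MeasureTheory Filter Topology
open scoped ComplexConjugate ENNReal

namespace Pool.Agent.V7H83.SC

open Pool.Agent.V7H83.LG Pool.Agent.V7H89.GL Pool.Agent.W169.HF H353.E H353.F

variable {m : ℕ}

theorem crude (hm : 1 ≤ m) {θ : ℝ} (hθ0 : 0 ≤ θ) (hθ : θ < 1 / 2) (Q0 : ℝ) : ∃ C : ℝ,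
    ∀ (N : ℝ) (μ : Fin m → ℂ) (α : Fin m → ℕ → ℂ) (w : ℂ) (Λ : ℂ → ℂ),
      Dat θ N μ α w Λ → ∀ t : ℝ, cq N μ t ≤ Q0 → ∀ r : ℝ, 0 ≤ r → r ≤ 1 / 2 →
      ‖LL N μ Λ (1 / 2 + t * I + r)‖ ≤ C := by
  have hm' : (1 : ℝ) ≤ m := by exact_mod_cast hm
  obtain ⟨K, hK, HB⟩ := base hm hθ0 hθ
  refine ⟨Real.exp (2 * (|Real.log (max Q0 1)| + 15 * m) + 4 * K), ?_⟩
  intro N μ α w Λ D t ht r hr0 hr1
  obtain ⟨-, -, HU⟩ := HB N μ α w Λ D
  obtain ⟨hud, hgam, hl1, hl2, hc1, -⟩ := HU t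
  have hG := hud.hG
  have hre : ((r : ℂ)).re = r := Complex.ofReal_re r
  have hnr : ‖(r : ℂ)‖ = r := by rw [Complex.norm_real, Real.norm_of_nonneg hr0]
  have h1 := (hgam r (by rw [hre]; exact hr0)).1
  have h2 := hud.up r
  rw [hre, hnr, abs_of_nonneg hr0, max_eq_right (by linarith)] at h2
  have h3 := LL_norm hG h1 h2
  refine h3.trans (Real.exp_le_exp.2 ?_)
  rw [hre, hnr]
  have hlog : Real.log (cq N μ t) ≤ |Real.log (max Q0 1)| :=
    (Real.log_le_log (by linarith) (ht.trans (le_max_left _ _))).trans (le_abs_self _)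
  have hlog0 := Real.log_nonneg hc1
  have h4 : |el N μ t| ≤ |Real.log (max Q0 1)| + 15 * m := by
    rw [abs_le]
    have := abs_nonneg (Real.log (max Q0 1))
    constructor <;> linarith
  have h5 : el N μ t * (1 + θ) + K * (1 + r ^ 2) - el N μ t * r + K * (1 + r ^ 2) =
      el N μ t * (1 + θ - r) + 2 * (K * (1 + r ^ 2)) := by ring
  rw [h5]
  have h6 : el N μ t * (1 + θ - r) ≤ |el N μ t| * 2 := by
    calc el N μ t * (1 + θ - r) ≤ |el N μ t| * (1 + θ - r) :=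
          mul_le_mul_of_nonneg_right (le_abs_self _) (by linarith)
      _ ≤ |el N μ t| * 2 := mul_le_mul_of_nonneg_left (by linarith) (abs_nonneg _)
  have h7 : K * (1 + r ^ 2) ≤ K * 2 := by
    apply mul_le_mul_of_nonneg_left _ (by linarith)
    nlinarith
  linarith

/-- the class of L-functions has the properties which we use -/
theorem good_of (hm : 1 ≤ m) {θ : ℝ} (hθ0 : 0 ≤ θ) (hθ : θ < 1 / 2) {S : Set ((ℂ → ℂ) × (ℝ → ℝ))}
    (hS : ∀ A ∈ S, ∃ (N : ℝ) (μ : Fin m → ℂ) (α : Fin m → ℕ → ℂ) (w : ℂ) (Λ : ℂ → ℂ),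
      Dat θ N μ α w Λ ∧ A.1 = LL N μ Λ ∧ A.2 = cq N μ) : Good m S where
  c_nonneg := by positivity
  cont := by
    intro A hA
    obtain ⟨N, μ, α, w, Λ, D, h1, h2⟩ := hS A hA
    obtain ⟨K, hK, HB⟩ := base hm hθ0 hθ
    obtain ⟨hCl, -, HU⟩ := HB N μ α w Λ D
    rw [h1]
    exact (LL_diff D.d.one_le hCl.1.1).continuous
  one := by
    intro A hA t
    obtain ⟨N, μ, α, w, Λ, D, h1, h2⟩ := hS A hA
    rw [h2]
    exact D.d.one_le.trans (le_cq D.d.one_le μ t)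
  move := by
    intro A hA t v
    obtain ⟨N, μ, α, w, Λ, D, h1, h2⟩ := hS A hA
    rw [h2]
    exact cq_move D.d.one_le μ t v
  crude := by
    intro Q0
    obtain ⟨C, hC⟩ := crude hm hθ0 hθ Q0
    refine ⟨C, fun A hA t ht r hr0 hr1 => ?_⟩
    obtain ⟨N, μ, α, w, Λ, D, h1, h2⟩ := hS A hA
    rw [h1]
    rw [h2] at ht
    exact hC N μ α w Λ D t ht r hr0 hr1
  near := by
    intro a H ε ha ha1 hH hε
    obtain ⟨η, Q0, hη, hQ0, HN⟩ := near hm hθ0 hθ ha ha1 hH hε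
    refine ⟨η, Q0, hη, hQ0, fun A hA T hT r hr0 hr1 hL x hx0 hx1 => ?_⟩
    obtain ⟨N, μ, α, w, Λ, D, h1, h2⟩ := hS A hA
    rw [h2] at hT hL ⊢
    rw [h1] at hL ⊢
    exact HN N μ α w Λ D T hT r hr0 hr1 hL x hx0 hx1

end Pool.Agent.V7H83.SC
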