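import Pool.Agent.H31R2.DH.Back
import Pool.Agent.V7H83.LG.A1

/-!
# A Harnack inequality for almost extremal functions

If `|F| ≤ 1` in a rectangle and `|F|` is at least `e^(-δ)` at one point, then the negative part of `log |F|` has
an integral `O(δ + 1)` over all vertical segments in a smaller rectangle.
-/

set_option autoImplicit false

open Complex Filter Topology Metric Set MeasureTheory
open H370 H370.Loc
open scoped ENNReal

namespace Pool.Agent.V7H83.SC

open Pool.Agent.V7H83.LG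

/-- lower bound in a disc for a function which is almost extremal at the centre -/
theorem loc {F : ℂ → ℂ} {c : ℂ} {R δ : ℝ} (hR : 0 < R) (hδ : 0 ≤ δ)
    (hF : AnalyticOnNhd ℂ F (closedBall c R)) (h1 : ∀ z ∈ closedBall c R, ‖F z‖ ≤ 1)
    (hc : Real.exp (-δ) ≤ ‖F c‖) :
    ∃ s : Multiset ℂ, (Multiset.card s : ℝ) ≤ 2 * δ ∧
      ∀ w ∈ closedBall c (R / 4),
        Real.exp (-(3 * δ + 2)) * (‖Pf s w‖ * (2 / R) ^ (Multiset.card s)) ≤ ‖F w‖ := by
  have hFc : F c ≠ 0 := by
    intro h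
    rw [h, norm_zero] at hc
    linarith [Real.exp_pos (-δ)]
  have hFc' : 0 < ‖F c‖ := norm_pos_iff.2 hFc
  obtain ⟨s, g, hs, hg, hfg, hg0, hcard⟩ := extract (r := R / 2) (R := R) (by linarith) (by linarith) le_rfl
    hF hFc h1
  set k := Multiset.card s with hk
  have hdist : ∀ ρ ∈ s, ‖ρ - c‖ ≤ R / 2 := by
    intro ρ hρ
    have := (hs ρ hρ).1
    rwa [mem_closedBall, dist_eq_norm] at this
  have hP1 : ∀ z ∈ sphere c R, (R / 2) ^ k ≤ ‖Pf s z‖ := by
    intro z hz
    refine Pf_norm_ge (by positivity) fun ρ hρ => ?_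
    have h2 := hdist ρ hρ
    rw [mem_sphere, dist_eq_norm] at hz
    have h3 : ‖z - c‖ ≤ ‖z - ρ‖ + ‖ρ - c‖ := by
      calc ‖z - c‖ = ‖(z - ρ) + (ρ - c)‖ := by congr 1; ring
        _ ≤ _ := norm_add_le _ _
    linarith
  have hP2 : ‖Pf s c‖ ≤ (R / 2) ^ k := by
    refine Pf_norm_le fun ρ hρ => ?_
    rw [norm_sub_rev]
    exact hdist ρ hρ
  have hgc : g c ≠ 0 := hg0 c (mem_closedBall_self (by linarith))
  have hpow : (R / 2) ^ k * (2 / R) ^ k = 1 := by
    rw [← mul_pow]
    have : R / 2 * (2 / R) = 1 := by field_simp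
    rw [this, one_pow]
  have hR2 : 0 < (R / 2) ^ k := by positivity
  have hR3 : 0 < (2 / R) ^ k := by positivity
  have hgc1 : Real.exp (-δ) * (2 / R) ^ k ≤ ‖g c‖ := by
    have h2 : Real.exp (-δ) ≤ (R / 2) ^ k * ‖g c‖ := by
      refine hc.trans ?_
      rw [hfg c, norm_mul]
      exact mul_le_mul_of_nonneg_right hP2 (norm_nonneg _)
    calc Real.exp (-δ) * (2 / R) ^ k ≤ (R / 2) ^ k * ‖g c‖ * (2 / R) ^ k := by gcongr
      _ = ‖g c‖ * ((R / 2) ^ k * (2 / R) ^ k) := by ring
      _ = ‖g c‖ := by rw [hpow, mul_one]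
  have hgB : ∀ z ∈ closedBall c R, ‖g z‖ ≤ (2 / R) ^ k := by
    intro z hz
    have hcl : closedBall c R = closure (ball c R) := (closure_ball c hR.ne').symm
    refine Complex.norm_le_of_forall_mem_frontier_norm_le (U := ball c R) isBounded_ball ?_ ?_
      (by rw [← hcl]; exact hz)
    · apply DifferentiableOn.diffContOnCl
      rw [← hcl]
      exact hg.differentiableOn
    · intro w hw
      rw [frontier_ball _ hR.ne'] at hw
      have h2 := h1 w (sphere_subset_closedBall hw)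
      rw [hfg w, norm_mul] at h2
      have h3 := hP1 w hw
      have h4 : (R / 2) ^ k * ‖g w‖ ≤ 1 := le_trans (by gcongr) h2
      calc ‖g w‖ = (R / 2) ^ k * ‖g w‖ * (2 / R) ^ k := by
            rw [mul_right_comm, hpow, one_mul]
        _ ≤ 1 * (2 / R) ^ k := by gcongr
        _ = _ := one_mul _
  have hexp : ∀ z ∈ ball c (R / 2), ‖g z‖ ≤ Real.exp δ * ‖g c‖ := by
    intro z hz
    have h2 := hgB z (closedBall_subset_closedBall (by linarith) (ball_subset_closedBall hz))
    refine h2.trans ?_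
    calc (2 / R) ^ k = Real.exp δ * (Real.exp (-δ) * (2 / R) ^ k) := by
          rw [← mul_assoc, ← Real.exp_add]; simp
      _ ≤ _ := by gcongr
  obtain ⟨h, hh, hhc, hgh⟩ := DH31.exists_log (g := g) (c := c) (r := R / 2) (by linarith)
    (fun w hw => hg w (closedBall_subset_closedBall (by linarith) (ball_subset_closedBall hw)))
    (fun w hw => hg0 w (ball_subset_closedBall hw))
  refine ⟨s, ?_, fun w hw => ?_⟩
  · refine hcard.trans ?_
    have e : R / (R / 2) = 2 := by field_simp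
    rw [e, one_div, Real.log_inv]
    have h2 : -δ ≤ Real.log ‖F c‖ := by
      rw [Real.le_log_iff_exp_le hFc']
      exact hc
    have h3 := Real.log_two_gt_d9
    rw [div_le_iff₀ (by linarith)]
    nlinarith
  · have h2 := DH31.bc_log (r := R / 2) (r' := R / 2) (r1 := R / 4) (B := δ) (by positivity) (by linarith)
      le_rfl hδ hgc hh hhc hgh hexp hw
    have h3 : 2 * (δ + 1) * (R / 4) / (R / 2 - R / 4) = 2 * (δ + 1) := by
      have : R / 2 - R / 4 = R / 4 := by ring
      rw [this]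
      field_simp
    rw [h3] at h2
    have hw2 : w ∈ ball c (R / 2) := closedBall_subset_ball (by linarith) hw
    have h4 : -(2 * (δ + 1)) ≤ (h w).re := by
      have := Complex.abs_re_le_norm (h w)
      have := neg_abs_le (h w).re
      linarith
    have h5 : (2 / R) ^ k * Real.exp (-(3 * δ + 2)) ≤ ‖g w‖ := by
      rw [hgh w hw2, norm_mul, Complex.norm_exp]
      calc (2 / R) ^ k * Real.exp (-(3 * δ + 2)) = Real.exp (-δ) * (2 / R) ^ k * Real.exp (-(2 * (δ + 1))) := by
            rw [mul_comm (Real.exp (-δ)), mul_assoc, ← Real.exp_add]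
            congr 2
            ring
        _ ≤ ‖g c‖ * Real.exp (h w).re := by gcongr
    rw [hfg w, norm_mul]
    calc Real.exp (-(3 * δ + 2)) * (‖Pf s w‖ * (2 / R) ^ k)
        = ‖Pf s w‖ * ((2 / R) ^ k * Real.exp (-(3 * δ + 2))) := by ring
      _ ≤ _ := by gcongr

/-! ### the negative part of the logarithm -/

lemma nl_anti {x y : ℝ} (hx : 0 ≤ x) (hxy : x ≤ y) : nl y ≤ nl x := by
  unfold nl
  by_cases h : x = 0
  · simp [h]
  · have hx' : 0 < x := lt_of_le_of_ne hx (Ne.symm h)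
    rw [if_neg h, if_neg (by linarith : y ≠ 0)]
    apply ENNReal.ofReal_le_ofReal
    have := Real.log_le_log hx' hxy
    linarith

lemma nl_mul {x y : ℝ} : nl (x * y) ≤ nl x + nl y := by
  unfold nl
  by_cases hx : x = 0
  · simp [hx]
  by_cases hy : y = 0
  · simp [hy]
  rw [if_neg (mul_ne_zero hx hy), if_neg hx, if_neg hy, Real.log_mul hx hy, neg_add]
  exact ENNReal.ofReal_add_le

lemma nl_exp (a : ℝ) : nl (Real.exp (-a)) = ENNReal.ofReal a := by
  unfold nl
  rw [if_neg (Real.exp_pos _).ne', Real.log_exp, neg_neg]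

lemma nl_ge_one {x : ℝ} (hx : 1 ≤ x) : nl x = 0 := by
  unfold nl
  rw [if_neg (by linarith : x ≠ 0), ENNReal.ofReal_eq_zero]
  have := Real.log_nonneg hx
  linarith

lemma exp_le_of_nl {y e : ℝ} (hy : 0 ≤ y) (he : 0 ≤ e) (h : nl y ≤ ENNReal.ofReal e) : Real.exp (-e) ≤ y := by
  unfold nl at h
  by_cases h0 : y = 0
  · rw [if_pos h0] at h
    exact absurd h (by simp)
  · rw [if_neg h0, ENNReal.ofReal_le_ofReal_iff he] at h
    have hy' : 0 < y := lt_of_le_of_ne hy (Ne.symm h0)
    rw [← Real.le_log_iff_exp_le hy']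
    linarith

lemma nl_prod (s : Multiset ℂ) (w : ℂ) : nl ‖Pf s w‖ ≤ (s.map fun ρ => nl ‖w - ρ‖).sum := by
  induction s using Multiset.induction_on with
  | empty => rw [Pf_zero, norm_one, nl_ge_one le_rfl]; exact zero_le
  | cons ρ s ih =>
    rw [Pf_cons, norm_mul, Multiset.map_cons, Multiset.sum_cons]
    exact nl_mul.trans (add_le_add le_rfl ih)

lemma lint_pos : ∫⁻ v in Ioc (0 : ℝ) 1, nl |v| ≤ 1 := by
  have h1 : ∫⁻ v in Ioc (0 : ℝ) 1, nl |v| = ∫⁻ v in Ioc (0 : ℝ) 1, ENNReal.ofReal (-Real.log v) := by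
    refine setLIntegral_congr_fun measurableSet_Ioc fun v hv => ?_
    show nl |v| = ENNReal.ofReal (-Real.log v)
    unfold nl
    rw [abs_of_pos hv.1, if_neg hv.1.ne']
  have hint : IntegrableOn (fun v : ℝ => -Real.log v) (Ioc (0 : ℝ) 1) := by
    have h2 : IntervalIntegrable Real.log volume (0 : ℝ) 1 := intervalIntegral.intervalIntegrable_log'
    exact ((intervalIntegrable_iff_integrableOn_Ioc_of_le zero_le_one).1 h2).neg
  rw [h1, ← ofReal_integral_eq_lintegral_ofReal hint]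
  · rw [← intervalIntegral.integral_of_le zero_le_one, intervalIntegral.integral_neg, integral_log]
    simp
  · filter_upwards [ae_restrict_mem measurableSet_Ioc] with v hv
    have := Real.log_nonpos hv.1.le hv.2
    simp only [Pi.zero_apply]
    linarith

lemma lint_nl : ∫⁻ v : ℝ, nl |v| ≤ 2 := by
  have h0 : ∀ᵐ v : ℝ, v ≠ 0 := by
    rw [ae_iff]
    simp
  have h1 : ∀ᵐ v : ℝ, nl |v| ≤ (Ioc (0 : ℝ) 1).indicator (fun v => nl |v|) v +
      (Ioc (0 : ℝ) 1).indicator (fun v => nl |v|) (-v) := by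
    filter_upwards [h0] with v hv
    by_cases h2 : 1 < |v|
    · rw [nl_ge_one h2.le]; exact zero_le
    · push Not at h2
      rcases lt_or_gt_of_ne hv with h3 | h3
      · rw [abs_of_neg h3] at h2
        rw [indicator_of_mem (show -v ∈ Ioc (0 : ℝ) 1 from ⟨by linarith, h2⟩), abs_neg]
        exact le_add_self
      · rw [abs_of_pos h3] at h2
        rw [indicator_of_mem (show v ∈ Ioc (0 : ℝ) 1 from ⟨h3, h2⟩)]
        exact le_self_add
  have hm : Measurable fun v : ℝ => (Ioc (0 : ℝ) 1).indicator (fun v => nl |v|) v := by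
    refine Measurable.indicator ?_ measurableSet_Ioc
    exact nl_measurable.comp measurable_norm
  calc ∫⁻ v : ℝ, nl |v| ≤ ∫⁻ v : ℝ, ((Ioc (0 : ℝ) 1).indicator (fun v => nl |v|) v +
        (Ioc (0 : ℝ) 1).indicator (fun v => nl |v|) (-v)) := lintegral_mono_ae h1
    _ = (∫⁻ v : ℝ, (Ioc (0 : ℝ) 1).indicator (fun v => nl |v|) v) +
        ∫⁻ v : ℝ, (Ioc (0 : ℝ) 1).indicator (fun v => nl |v|) (-v) := lintegral_add_left hm _
    _ = (∫⁻ v : ℝ, (Ioc (0 : ℝ) 1).indicator (fun v => nl |v|) v) +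
        ∫⁻ v : ℝ, (Ioc (0 : ℝ) 1).indicator (fun v => nl |v|) v := by
        congr 1
        exact lintegral_neg_eq_self (fun v : ℝ => (Ioc (0 : ℝ) 1).indicator (fun v => nl |v|) v)
    _ ≤ 1 + 1 := by
        rw [lintegral_indicator measurableSet_Ioc]
        exact add_le_add lint_pos lint_pos
    _ = 2 := by norm_num

lemma lint_shift (β : ℝ) : ∫⁻ v : ℝ, nl |v - β| ≤ 2 := by
  rw [lintegral_sub_right_eq_self (fun v : ℝ => nl |v|) β]
  exact lint_nl

end Pool.Agent.V7H83.SC
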