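import Pool.Agent.V7H83.SC.S1

/-!
# Harnack chains for almost extremal functions
-/

set_option autoImplicit false

open Complex Filter Topology Metric Set MeasureTheory
open H370 H370.Loc
open scoped ENNReal

namespace Pool.Agent.V7H83.SC

open Pool.Agent.V7H83.LG

lemma card_sum_le (s : Multiset ℂ) (f : ℂ → ℝ≥0∞) {B : ℝ≥0∞} (h : ∀ ρ ∈ s, f ρ ≤ B) :
    (s.map f).sum ≤ (Multiset.card s : ℝ≥0∞) * B := by
  induction s using Multiset.induction_on with
  | empty => simp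
  | cons ρ s ih =>
    rw [Multiset.map_cons, Multiset.sum_cons, Multiset.card_cons]
    push_cast
    rw [add_mul, one_mul, add_comm]
    exact add_le_add (ih fun ρ' h' => h ρ' (Multiset.mem_cons_of_mem h')) (h ρ (Multiset.mem_cons_self ρ s))

lemma lint_msum (s : Multiset ℂ) (f : ℂ → ℝ → ℝ≥0∞) (hf : ∀ ρ, Measurable (f ρ)) (A : Set ℝ) :
    ∫⁻ v in A, (s.map fun ρ => f ρ v).sum = (s.map fun ρ => ∫⁻ v in A, f ρ v).sum := by
  induction s using Multiset.induction_on with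
  | empty => simp
  | cons ρ s ih =>
    simp only [Multiset.map_cons, Multiset.sum_cons]
    rw [lintegral_add_left (hf ρ), ih]

lemma meas_nl (β : ℝ) : Measurable fun v : ℝ => nl |v - β| :=
  nl_measurable.comp (measurable_norm.comp (measurable_id.sub_const β))

/-- the point `x + i v` -/
noncomputable def pt (x v : ℝ) : ℂ := x + v * I

@[simp] lemma pt_re (x v : ℝ) : (pt x v).re = x := by simp [pt]

@[simp] lemma pt_im (x v : ℝ) : (pt x v).im = v := by simp [pt]

lemma pt_sub (x v u : ℝ) : ‖pt x v - pt x u‖ = |v - u| := by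
  have : pt x v - pt x u = ((v - u : ℝ) : ℂ) * I := by unfold pt; push_cast; ring
  rw [this, norm_mul, Complex.norm_I, mul_one, Complex.norm_real, Real.norm_eq_abs]

lemma pt_cont (x : ℝ) : Continuous (pt x) := by unfold pt; fun_prop

/-- the segment inequality -/
theorem seg {F : ℂ → ℂ} {c : ℂ} {R δ : ℝ} (hR : 0 < R) (hR2 : R ≤ 2) (hδ : 0 ≤ δ)
    (hF : AnalyticOnNhd ℂ F (closedBall c R)) (h1 : ∀ z ∈ closedBall c R, ‖F z‖ ≤ 1)
    (hc : Real.exp (-δ) ≤ ‖F c‖) {x y : ℝ} (hxy : ‖pt x y - c‖ ≤ R / 8) :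
    ∫⁻ v in Icc (y - R / 8) (y + R / 8), nl ‖F (pt x v)‖ ≤ ENNReal.ofReal (8 * (δ + 1)) := by
  obtain ⟨s, hs, hw⟩ := loc hR hδ hF h1 hc
  have hbd : ∀ v ∈ Icc (y - R / 8) (y + R / 8), nl ‖F (pt x v)‖ ≤ ENNReal.ofReal (3 * δ + 2) +
      (s.map fun ρ => nl |v - ρ.im|).sum := by
    intro v hv
    have hv' : |v - y| ≤ R / 8 := abs_le.2 ⟨by linarith [hv.1], by linarith [hv.2]⟩
    have h2 : pt x v ∈ closedBall c (R / 4) := by
      rw [mem_closedBall, dist_eq_norm]
      calc ‖pt x v - c‖ = ‖(pt x v - pt x y) + (pt x y - c)‖ := by congr 1; ring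
        _ ≤ ‖pt x v - pt x y‖ + ‖pt x y - c‖ := norm_add_le _ _
        _ ≤ R / 8 + R / 8 := by rw [pt_sub]; exact add_le_add hv' hxy
        _ = R / 4 := by ring
    refine (nl_anti (by positivity) (hw _ h2)).trans ?_
    refine nl_mul.trans ?_
    rw [nl_exp]
    refine add_le_add le_rfl ?_
    refine nl_mul.trans ?_
    have h3 : (1 : ℝ) ≤ (2 / R) ^ (Multiset.card s) := one_le_pow₀ (by rw [le_div_iff₀ hR]; linarith)
    rw [nl_ge_one h3, add_zero]
    refine (nl_prod s _).trans ?_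
    refine Multiset.sum_map_le_sum_map _ _ fun ρ _ => nl_anti (abs_nonneg _) ?_
    have h4 := Complex.abs_im_le_norm (pt x v - ρ)
    rwa [Complex.sub_im, pt_im] at h4
  calc ∫⁻ v in Icc (y - R / 8) (y + R / 8), nl ‖F (pt x v)‖
      ≤ ∫⁻ v in Icc (y - R / 8) (y + R / 8), (ENNReal.ofReal (3 * δ + 2) +
          (s.map fun ρ => nl |v - ρ.im|).sum) := setLIntegral_mono' measurableSet_Icc hbd
    _ = (∫⁻ v in Icc (y - R / 8) (y + R / 8), ENNReal.ofReal (3 * δ + 2)) +
          ∫⁻ v in Icc (y - R / 8) (y + R / 8), (s.map fun ρ => nl |v - ρ.im|).sum :=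
        lintegral_add_left measurable_const _
    _ ≤ ENNReal.ofReal (3 * δ + 2) + (Multiset.card s : ℝ≥0∞) * 2 := by
        refine add_le_add ?_ ?_
        · rw [setLIntegral_const, Real.volume_Icc]
          calc ENNReal.ofReal (3 * δ + 2) * ENNReal.ofReal (y + R / 8 - (y - R / 8))
              ≤ ENNReal.ofReal (3 * δ + 2) * 1 := by
                gcongr
                rw [← ENNReal.ofReal_one]
                exact ENNReal.ofReal_le_ofReal (by linarith)
            _ = _ := mul_one _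
        · rw [lint_msum s (fun ρ v => nl |v - ρ.im|) (fun ρ => meas_nl ρ.im)]
          refine card_sum_le s _ fun ρ _ => ?_
          exact (setLIntegral_le_lintegral _ _).trans (lint_shift ρ.im)
    _ ≤ ENNReal.ofReal (3 * δ + 2) + ENNReal.ofReal (2 * δ) * 2 := by
        gcongr
        rw [← ENNReal.ofReal_natCast]
        exact ENNReal.ofReal_le_ofReal hs
    _ = ENNReal.ofReal (3 * δ + 2 + 2 * δ * 2) := by
        rw [show (2 : ℝ≥0∞) = ENNReal.ofReal 2 by simp, ← ENNReal.ofReal_mul (by linarith),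
          ← ENNReal.ofReal_add (by linarith) (by linarith)]
    _ ≤ _ := ENNReal.ofReal_le_ofReal (by linarith)

/-- a good point on a segment -/
lemma good {F : ℂ → ℂ} (hF : Continuous F) {x y h E : ℝ} (hh : 0 < h) (hE : 0 ≤ E)
    (hi : ∫⁻ v in Icc (y - h) (y + h), nl ‖F (pt x v)‖ ≤ ENNReal.ofReal E) :
    ∃ v ∈ Icc (y - h) (y + h), Real.exp (-(E / (2 * h))) ≤ ‖F (pt x v)‖ := by
  have hvol : volume (Icc (y - h) (y + h)) = ENNReal.ofReal (2 * h) := by
    rw [Real.volume_Icc]; congr 1; ring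
  have h0 : volume (Icc (y - h) (y + h)) ≠ 0 := by
    rw [hvol]
    simp only [ne_eq, ENNReal.ofReal_eq_zero, not_le]
    linarith
  have hm : Measurable fun v : ℝ => nl ‖F (pt x v)‖ :=
    nl_measurable.comp (measurable_norm.comp (hF.comp (pt_cont x)).measurable)
  obtain ⟨v, hv, hle⟩ := exists_le_setLAverage h0 (by rw [hvol]; exact ENNReal.ofReal_ne_top)
    hm.aemeasurable.restrict
  refine ⟨v, hv, exp_le_of_nl (norm_nonneg _) (by positivity) (hle.trans ?_)⟩
  rw [setLAverage_eq, hvol, ENNReal.ofReal_div_of_pos (by linarith)]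
  gcongr

/-- the integral over the segment of radius `h` about `w` -/
noncomputable def sg (F : ℂ → ℂ) (h : ℝ) (w : ℂ) : ℝ≥0∞ :=
  ∫⁻ v in Icc (w.im - h) (w.im + h), nl ‖F (pt w.re v)‖

lemma pt_eta (w : ℂ) : pt w.re w.im = w := by
  apply Complex.ext <;> simp

/-- one step of the chain -/
lemma step {F : ℂ → ℂ} (hF : Differentiable ℂ F) {R E : ℝ} (hR : 0 < R) (hR2 : R ≤ 1) (hE : 0 ≤ E)
    {w w' : ℂ} (hww : ‖w - w'‖ ≤ R / 16) (h1 : ∀ z ∈ closedBall w (2 * R), ‖F z‖ ≤ 1)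
    (h : sg F (R / 8) w' ≤ ENNReal.ofReal E) :
    sg F (R / 8) w ≤ ENNReal.ofReal (8 * (8 * E / R + 1)) := by
  have h2 : ∫⁻ v in Icc (w'.im - R / 16) (w'.im + R / 16), nl ‖F (pt w'.re v)‖ ≤ ENNReal.ofReal E := by
    refine le_trans ?_ h
    unfold sg
    exact lintegral_mono_set (Icc_subset_Icc (by linarith) (by linarith))
  obtain ⟨v, hv, hle⟩ := good hF.continuous (by positivity) hE h2
  have hv' : |v - w'.im| ≤ R / 16 := abs_le.2 ⟨by linarith [hv.1], by linarith [hv.2]⟩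
  have e : E / (2 * (R / 16)) = 8 * E / R := by field_simp; ring
  rw [e] at hle
  have hd : ‖w - pt w'.re v‖ ≤ R / 8 := by
    calc ‖w - pt w'.re v‖ = ‖(w - w') + (w' - pt w'.re v)‖ := by congr 1; ring
      _ ≤ ‖w - w'‖ + ‖w' - pt w'.re v‖ := norm_add_le _ _
      _ ≤ R / 16 + R / 16 := by
          refine add_le_add hww ?_
          conv_lhs => rw [← pt_eta w']
          simp only [pt_re]
          rw [pt_sub, abs_sub_comm]
          exact hv'
      _ = R / 8 := by ring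
  have h3 := seg (c := pt w'.re v) (δ := 8 * E / R) hR (by linarith) (by positivity)
    (fun z _ => hF.analyticAt z) (fun z hz => h1 z ?_) hle (x := w.re) (y := w.im)
    (by rw [pt_eta]; exact hd)
  · exact h3
  · rw [mem_closedBall, dist_eq_norm] at hz ⊢
    calc ‖z - w‖ = ‖(z - pt w'.re v) - (w - pt w'.re v)‖ := by congr 1; ring
      _ ≤ ‖z - pt w'.re v‖ + ‖w - pt w'.re v‖ := norm_sub_le _ _
      _ ≤ 2 * R := by linarith

/-- the chain -/
theorem chain {R : ℝ} (hR : 0 < R) (hR2 : R ≤ 1) (n : ℕ) : ∃ A : ℝ, 0 ≤ A ∧ ∀ (F : ℂ → ℂ) (b H δ : ℝ)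
    (c w : ℂ), Differentiable ℂ F → (∀ z : ℂ, |z.re| ≤ b → |z.im| ≤ H → ‖F z‖ ≤ 1) → 0 ≤ δ →
    Real.exp (-δ) ≤ ‖F c‖ → |c.re| ≤ b - 2 * R → |c.im| ≤ H - 2 * R → |w.re| ≤ b - 2 * R →
    |w.im| ≤ H - 2 * R → ‖w - c‖ ≤ n * (R / 16) → sg F (R / 8) w ≤ ENNReal.ofReal (A * (δ + 1)) := by
  have hball : ∀ {b H : ℝ} {w z : ℂ}, |w.re| ≤ b - 2 * R → |w.im| ≤ H - 2 * R → z ∈ closedBall w (2 * R) →
      |z.re| ≤ b ∧ |z.im| ≤ H := by
    intro b H w z h1 h2 hz
    rw [mem_closedBall, dist_eq_norm] at hz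
    have h3 := Complex.abs_re_le_norm (z - w)
    have h4 := Complex.abs_im_le_norm (z - w)
    rw [Complex.sub_re] at h3
    rw [Complex.sub_im] at h4
    rw [abs_le] at h1 h2 h3 h4 ⊢
    rw [abs_le]
    refine ⟨⟨by linarith, by linarith⟩, by linarith, by linarith⟩
  induction n with
  | zero =>
    refine ⟨8, by norm_num, ?_⟩
    intro F b H δ c w hF h1 hδ hc hc1 hc2 hw1 hw2 hwc
    have hwc' : w = c := by
      have : ‖w - c‖ ≤ 0 := by simpa using hwc
      exact sub_eq_zero.1 (norm_le_zero_iff.1 this)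
    subst hwc'
    unfold sg
    refine seg (c := w) hR (by linarith) hδ (fun z _ => hF.analyticAt z) (fun z hz => ?_) hc ?_
    · obtain ⟨h3, h4⟩ := hball hc1 hc2 (closedBall_subset_closedBall (by linarith) hz)
      exact h1 z h3 h4
    · rw [pt_eta, sub_self, norm_zero]; positivity
  | succ n ih =>
    obtain ⟨A, hA, HA⟩ := ih
    refine ⟨8 * (8 * A / R + 1), by positivity, ?_⟩
    intro F b H δ c w hF h1 hδ hc hc1 hc2 hw1 hw2 hwc
    set τ : ℝ := n / (n + 1) with hτ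
    have hn1 : (0 : ℝ) < n + 1 := by positivity
    have hτ0 : 0 ≤ τ := by positivity
    have hτ1 : 1 - τ = 1 / (n + 1) := by rw [hτ]; field_simp; ring
    have hτ2 : 0 ≤ 1 - τ := by rw [hτ1]; positivity
    set w' : ℂ := c + τ * (w - c) with hw'
    have hre : w'.re = (1 - τ) * c.re + τ * w.re := by
      rw [hw', Complex.add_re, Complex.re_ofReal_mul, Complex.sub_re]; ring
    have him : w'.im = (1 - τ) * c.im + τ * w.im := by
      rw [hw', Complex.add_im, Complex.im_ofReal_mul, Complex.sub_im]; ring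
    have hw1' : |w'.re| ≤ b - 2 * R := by
      rw [hre]
      calc |(1 - τ) * c.re + τ * w.re| ≤ |(1 - τ) * c.re| + |τ * w.re| := abs_add_le _ _
        _ = (1 - τ) * |c.re| + τ * |w.re| := by rw [abs_mul, abs_mul, abs_of_nonneg hτ2, abs_of_nonneg hτ0]
        _ ≤ (1 - τ) * (b - 2 * R) + τ * (b - 2 * R) := by gcongr
        _ = _ := by ring
    have hw2' : |w'.im| ≤ H - 2 * R := by
      rw [him]
      calc |(1 - τ) * c.im + τ * w.im| ≤ |(1 - τ) * c.im| + |τ * w.im| := abs_add_le _ _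
        _ = (1 - τ) * |c.im| + τ * |w.im| := by rw [abs_mul, abs_mul, abs_of_nonneg hτ2, abs_of_nonneg hτ0]
        _ ≤ (1 - τ) * (H - 2 * R) + τ * (H - 2 * R) := by gcongr
        _ = _ := by ring
    push_cast at hwc
    have h2 : ‖w' - c‖ ≤ n * (R / 16) := by
      rw [hw', add_sub_cancel_left, norm_mul, Complex.norm_real, Real.norm_of_nonneg hτ0]
      calc τ * ‖w - c‖ ≤ τ * ((n + 1) * (R / 16)) := by gcongr
        _ = n * (R / 16) := by rw [hτ]; field_simp
    have h3 : ‖w - w'‖ ≤ R / 16 := by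
      have e : w - w' = ((1 - τ : ℝ) : ℂ) * (w - c) := by rw [hw']; push_cast; ring
      rw [e, norm_mul, Complex.norm_real, Real.norm_of_nonneg hτ2]
      calc (1 - τ) * ‖w - c‖ ≤ (1 - τ) * ((n + 1) * (R / 16)) := by gcongr
        _ = R / 16 := by rw [hτ1]; field_simp
    have h4 := HA F b H δ c w' hF h1 hδ hc hc1 hc2 hw1' hw2' h2
    have h5 := step hF hR hR2 (by positivity) h3 (fun z hz => by
      obtain ⟨h3, h4⟩ := hball hw1 hw2 hz
      exact h1 z h3 h4) h4
    refine h5.trans (ENNReal.ofReal_le_ofReal ?_)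
    have e : 8 * (8 * (A * (δ + 1)) / R + 1) = 64 * A / R * (δ + 1) + 8 := by ring
    have e' : 8 * (8 * A / R + 1) * (δ + 1) = 64 * A / R * (δ + 1) + 8 * (δ + 1) := by ring
    rw [e, e']
    linarith

/-- covering an interval -/
lemma cover (g : ℝ → ℝ≥0∞) {h : ℝ} (hh : 0 ≤ h) {B : ℝ≥0∞} (a : ℝ) (n : ℕ)
    (hB : ∀ k : ℕ, k < n → ∫⁻ v in Icc (a + k * h) (a + (k + 1) * h), g v ≤ B) :
    ∫⁻ v in Ico a (a + n * h), g v ≤ n * B := by
  induction n with
  | zero => simp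
  | succ n ih =>
    have h1 := ih fun k hk => hB k (by omega)
    have h2 : Ico a (a + ((n + 1 : ℕ) : ℝ) * h) ⊆ Ico a (a + n * h) ∪ Icc (a + n * h) (a + (n + 1) * h) := by
      intro v hv
      push_cast at hv
      rcases lt_or_ge v (a + n * h) with h3 | h3
      · exact Or.inl ⟨hv.1, h3⟩
      · exact Or.inr ⟨h3, hv.2.le⟩
    calc ∫⁻ v in Ico a (a + ((n + 1 : ℕ) : ℝ) * h), g v
        ≤ ∫⁻ v in Ico a (a + n * h) ∪ Icc (a + n * h) (a + (n + 1) * h), g v := lintegral_mono_set h2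
      _ ≤ (∫⁻ v in Ico a (a + n * h), g v) + ∫⁻ v in Icc (a + n * h) (a + (n + 1) * h), g v :=
          lintegral_union_le _ _ _
      _ ≤ n * B + B := add_le_add h1 (hB n (by omega))
      _ = _ := by push_cast; ring

/-- the Harnack inequality -/
theorem harn {a b H : ℝ} (ha : 0 < a) (ha1 : a ≤ 1) (hb : b ≤ 1) (hH : 0 ≤ H) : ∃ A : ℝ, 0 ≤ A ∧
    ∀ (F : ℂ → ℂ) (δ : ℝ) (c : ℂ), Differentiable ℂ F →
      (∀ z : ℂ, |z.re| ≤ b → |z.im| ≤ H + 2 → ‖F z‖ ≤ 1) → 0 ≤ δ → Real.exp (-δ) ≤ ‖F c‖ →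
      |c.re| ≤ b - a → |c.im| ≤ H → ∀ x : ℝ, |x| ≤ b - a →
      ∫⁻ v in Ico (-H) H, nl ‖F (pt x v)‖ ≤ ENNReal.ofReal (A * (δ + 1)) := by
  set R : ℝ := a / 2 with hR
  have hR0 : 0 < R := by positivity
  have hR1 : R ≤ 1 := by rw [hR]; linarith
  obtain ⟨n, hn⟩ := exists_nat_gt ((2 * H + 4) / (R / 16))
  rw [div_lt_iff₀ (by positivity)] at hn
  obtain ⟨N, hN⟩ := exists_nat_gt (2 * H / (R / 4))
  rw [div_lt_iff₀ (by positivity)] at hN
  obtain ⟨A, hA, HA⟩ := chain hR0 hR1 n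
  refine ⟨N * A, by positivity, ?_⟩
  intro F δ c hF h1 hδ hc hc1 hc2 x hx
  -- restrict the interval
  by_cases hH0 : H = 0
  · subst hH0
    simp
  have hHpos : 0 < H := lt_of_le_of_ne hH (Ne.symm hH0)
  set h : ℝ := 2 * H / N with hh
  have hN0 : (0 : ℝ) < N := by
    by_contra hcon
    push Not at hcon
    nlinarith
  have hhR : h ≤ R / 4 := by
    rw [hh, div_le_iff₀ hN0]; linarith
  have hh0 : 0 ≤ h := by positivity
  have hNh : -H + N * h = H := by rw [hh]; field_simp; ring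
  have h2 := cover (fun v => nl ‖F (pt x v)‖) hh0 (B := ENNReal.ofReal (A * (δ + 1))) (-H) N
    (fun k hk => by
      have hk0 : (0 : ℝ) ≤ k := by positivity
      have hk1 : (k : ℝ) + 1 ≤ N := by exact_mod_cast hk
      set y : ℝ := -H + (k + 1 / 2) * h with hy
      have hy1 : -H ≤ y := by rw [hy]; nlinarith
      have hy2 : y ≤ H := by
        rw [← hNh, hy]
        nlinarith
      have hyH : |y| ≤ H := abs_le.2 ⟨hy1, hy2⟩
      have h3 := HA F b (H + 2) δ c (pt x y) hF h1 hδ hc (by rw [hR]; linarith) (by rw [hR]; linarith)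
        (by rw [pt_re, hR]; linarith) (by rw [pt_im, hR]; linarith) (by
          have h4 : ‖pt x y - c‖ ≤ |(pt x y - c).re| + |(pt x y - c).im| := Complex.norm_le_abs_re_add_abs_im _
          rw [Complex.sub_re, Complex.sub_im, pt_re, pt_im] at h4
          have h5 : |x - c.re| ≤ |x| + |c.re| := abs_sub _ _
          have h6 : |y - c.im| ≤ |y| + |c.im| := abs_sub _ _
          linarith)
      refine le_trans ?_ h3
      unfold sg
      simp only [pt_re, pt_im]
      refine lintegral_mono_set (Icc_subset_Icc ?_ ?_)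
      · rw [hy]; linarith
      · rw [hy]; linarith)
  rw [hNh] at h2
  refine h2.trans ?_
  rw [← ENNReal.ofReal_natCast, ← ENNReal.ofReal_mul (by positivity)]
  exact ENNReal.ofReal_le_ofReal (by linarith)

end Pool.Agent.V7H83.SC
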