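import Pool.Agent.V7H83.SC.S2
import Pool.Agent.V7H89.GL.Fam

/-!
# Almost extremal values of L-functions persist in the critical strip
-/

set_option autoImplicit false

open Complex Set MeasureTheory Filter Topology
open scoped ComplexConjugate ENNReal

namespace Pool.Agent.V7H83.SC

open Pool.Agent.V7H83.LG Pool.Agent.V7H89.GL Pool.Agent.W169.HF H353.E H353.F

variable {m : ℕ}

/-- if an L-function is almost as large as the convexity bound allows at one point of the critical strip, then it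
is so near this height in the mean over every vertical segment -/
theorem near (hm : 1 ≤ m) {θ : ℝ} (hθ0 : 0 ≤ θ) (hθ : θ < 1 / 2) {a H ε : ℝ} (ha : 0 < a) (ha1 : a ≤ 1 / 2)
    (hH : 0 < H) (hε : 0 < ε) :
    ∃ η Q0 : ℝ, 0 < η ∧ 1 < Q0 ∧ ∀ (N : ℝ) (μ : Fin m → ℂ) (α : Fin m → ℕ → ℂ) (w : ℂ) (Λ : ℂ → ℂ),
      Dat θ N μ α w Λ → ∀ T : ℝ, Q0 ≤ cq N μ T → ∀ r : ℝ, 0 ≤ r → r ≤ 1 / 2 - a →
      cq N μ T ^ (1 / 4 - r / 2 - η) ≤ ‖LL N μ Λ (1 / 2 + T * I + r)‖ →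
      ∀ x : ℝ, 0 ≤ x → x ≤ 1 / 2 - a →
        ∫⁻ v in Ico (-H) H, nl (‖LL N μ Λ (1 / 2 + T * I + pt x v)‖ * cq N μ T ^ (-(1 / 4 - x / 2))) ≤
          ENNReal.ofReal (ε * Real.log (cq N μ T)) := by
  have hm' : (1 : ℝ) ≤ m := by exact_mod_cast hm
  obtain ⟨K, hK, HB⟩ := base hm hθ0 hθ
  obtain ⟨A, hA, HA⟩ := harn (a := a) (b := 1 / 2) (H := H) ha (by linarith) (by norm_num) hH.le
  obtain ⟨ρ, hρd⟩ : ∃ ρ : ℝ, ρ = min 1 (ε / (8 * (A + 1))) := ⟨_, rfl⟩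
  have hρ : 0 < ρ := by rw [hρd]; exact lt_min one_pos (by positivity)
  have hρ1 : ρ ≤ 1 := by rw [hρd]; exact min_le_left _ _
  have hρA : A * (4 * ρ) ≤ ε / 2 := by
    have h1 : ρ ≤ ε / (8 * (A + 1)) := by rw [hρd]; exact min_le_right _ _
    rw [le_div_iff₀ (by positivity)] at h1
    nlinarith
  obtain ⟨R4, ℓc, hR4, HP⟩ := prof_all K (1 + θ) (1 / 2) ρ ρ (H + 2) hK (by linarith)
    (by linarith) (by norm_num) (by linarith) hρ hρ1 hρ (by linarith)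
  obtain ⟨C1, hC1⟩ : ∃ C1 : ℝ, C1 = 30 * m + 2 * K := ⟨_, rfl⟩
  obtain ⟨C2, hC2⟩ : ∃ C2 : ℝ, C2 = K * (2 + H ^ 2) + 15 * m := ⟨_, rfl⟩
  have hC10 : 0 < C1 := by rw [hC1]; positivity
  have hC20 : 0 < C2 := by rw [hC2]; positivity
  obtain ⟨E1, hE1⟩ : ∃ E1 : ℝ, E1 = (A * (C1 + 1) + C2 * (2 * H)) / (ε / 2) := ⟨_, rfl⟩
  obtain ⟨ℓ0, hℓ0⟩ : ∃ ℓ0 : ℝ, ℓ0 = max (max ℓc E1) (max (15 * m) 1) := ⟨_, rfl⟩
  have hℓ01 : 1 ≤ ℓ0 := by rw [hℓ0]; exact (le_max_right _ _).trans (le_max_right _ _)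
  refine ⟨ρ, Real.exp (2 * ℓ0 + 15 * m), hρ, ?_, ?_⟩
  · apply Real.one_lt_exp_iff.2
    positivity
  intro N μ α w Λ D T hT r hr0 hr1 hL x hx0 hx1
  have hN := D.d.one_le
  obtain ⟨-, -, HU⟩ := HB N μ α w Λ D
  obtain ⟨hud, hgam, hl1, hl2, hc1, hfne⟩ := HU T
  obtain ⟨ℓ, hℓd⟩ : ∃ ℓ : ℝ, ℓ = el N μ T := ⟨_, rfl⟩
  obtain ⟨G, hGd⟩ : ∃ G : ℝ, G = GG θ N μ T := ⟨_, rfl⟩
  obtain ⟨f, hfd⟩ : ∃ f : ℂ → ℂ, f = ff N Λ T := ⟨_, rfl⟩
  obtain ⟨L, hLd⟩ : ∃ L : ℝ, L = Real.log (cq N μ T) := ⟨_, rfl⟩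
  rw [← hℓd, ← hGd, ← hfd] at hud
  rw [← hℓd, ← hGd] at hgam
  rw [← hℓd, ← hLd] at hl1 hl2
  rw [← hfd] at hfne
  have hG : 0 < G := hud.hG
  have hq0 : 0 < cq N μ T := by linarith
  have hLge : 2 * ℓ0 + 15 * m ≤ L := by
    have := Real.log_le_log (Real.exp_pos _) hT
    rwa [Real.log_exp, ← hLd] at this
  have hℓ : ℓ0 ≤ ℓ := by linarith
  have hℓc : ℓc ≤ ℓ := ((le_max_left _ _).trans (le_max_left _ _)).trans (hℓ0 ▸ hℓ)
  have hℓE : E1 ≤ ℓ := ((le_max_right _ _).trans (le_max_left _ _)).trans (hℓ0 ▸ hℓ)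
  have hℓm : 15 * m ≤ ℓ := ((le_max_left _ _).trans (le_max_right _ _)).trans (hℓ0 ▸ hℓ)
  have hℓ1 : 1 ≤ ℓ := ((le_max_right _ _).trans (le_max_right _ _)).trans (hℓ0 ▸ hℓ)
  have hpow : ∀ e : ℝ, cq N μ T ^ e = Real.exp (e * L) := fun e => by
    rw [Real.rpow_def_of_pos hq0, ← hLd, mul_comm]
  rw [← hLd]
  have hP := HP ℓ G f hℓc hud fun u hu _ => hfne u hu
  -- the normalised function
  obtain ⟨M, hMd⟩ : ∃ M : ℝ, M = (1 / 2 + 2 * ρ) * ℓ := ⟨_, rfl⟩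
  obtain ⟨g, hgd⟩ : ∃ g : ℂ → ℂ, g = fun u => f u * ((G * Real.exp M : ℝ) : ℂ)⁻¹ := ⟨_, rfl⟩
  have hGM : 0 < G * Real.exp M := by positivity
  have hgn : ∀ u, ‖g u‖ = ‖f u‖ / (G * Real.exp M) := fun u => by
    rw [hgd]
    simp only
    rw [norm_mul, norm_inv, Complex.norm_real, Real.norm_of_nonneg hGM.le, div_eq_mul_inv]
  have hgdiff : Differentiable ℂ g := by
    rw [hgd]
    exact hud.slow.1.mul_const _
  have hg1 : ∀ z : ℂ, |z.re| ≤ 1 / 2 → |z.im| ≤ H + 2 → ‖g z‖ ≤ 1 := by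
    intro z h1 h2
    rw [hgn, div_le_one hGM]
    refine (hP.upp z (by linarith) h2).trans ?_
    apply mul_le_mul_of_nonneg_left (Real.exp_le_exp.2 _) hG.le
    rw [max_eq_right (by linarith : |z.re| ≤ 1 / 2 + ρ), hMd]
    linarith
  -- f = L * gamma
  have hfL : ∀ u : ℂ, 0 ≤ u.re → ‖f u‖ = ‖LL N μ Λ (1 / 2 + T * I + u)‖ * ‖gaf N μ (1 / 2 + T * I + u)‖ := by
    intro u hu
    have hne : gaf N μ (1 / 2 + T * I + u) ≠ 0 :=
      norm_pos_iff.1 (lt_of_lt_of_le (by positivity) (hgam u hu).1)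
    rw [← norm_mul, hfd]
    unfold LL ff
    rw [mul_assoc, inv_mul_cancel₀ hne, mul_one]
  obtain ⟨δ, hδd⟩ : ∃ δ : ℝ, δ = 4 * ρ * ℓ + C1 := ⟨_, rfl⟩
  have hδ : 0 ≤ δ := by rw [hδd]; positivity
  have hcen : Real.exp (-δ) ≤ ‖g r‖ := by
    rw [hgn, le_div_iff₀ hGM, hfL _ (by simpa using hr0)]
    have h1 := (hgam r (by simpa using hr0)).1
    rw [Complex.ofReal_re, Complex.norm_real, Real.norm_of_nonneg hr0] at h1
    rw [hpow] at hL
    calc Real.exp (-δ) * (G * Real.exp M) = G * Real.exp (-δ + M) := by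
          rw [Real.exp_add]; ring
      _ ≤ G * Real.exp ((1 / 4 - r / 2 - ρ) * L + (ℓ * r - K * (1 + r ^ 2))) := by
          apply mul_le_mul_of_nonneg_left (Real.exp_le_exp.2 _) hG.le
          have h2 : (1 / 4 - r / 2) * (2 * ℓ - 15 * m) ≤ (1 / 4 - r / 2) * L :=
            mul_le_mul_of_nonneg_left (by linarith) (by linarith)
          have h3 : ρ * L ≤ ρ * (2 * ℓ + 15 * m) := mul_le_mul_of_nonneg_left (by linarith) hρ.le
          have h4 : ρ * (15 * m) ≤ 1 * (15 * m) := mul_le_mul_of_nonneg_right hρ1 (by positivity)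
          have h5 : (1 / 4 - r / 2) * (15 * m) ≤ 1 * (15 * m) :=
            mul_le_mul_of_nonneg_right (by linarith) (by positivity)
          have h6 : K * (1 + r ^ 2) ≤ K * 2 := by
            apply mul_le_mul_of_nonneg_left _ (by linarith)
            nlinarith
          rw [hδd, hMd, hC1]
          have e1 : (1 / 4 - r / 2 - ρ) * L = (1 / 4 - r / 2) * L - ρ * L := by ring
          have e2 : (1 / 4 - r / 2) * (2 * ℓ - 15 * m) = ℓ / 2 - ℓ * r - (1 / 4 - r / 2) * (15 * m) := by ring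
          have e3 : ρ * (2 * ℓ + 15 * m) = 2 * ρ * ℓ + ρ * (15 * m) := by ring
          have e4 : (1 / 2 + 2 * ρ) * ℓ = ℓ / 2 + 2 * ρ * ℓ := by ring
          have h7 : 0 ≤ ρ * ℓ := by positivity
          have e5 : 4 * ρ * ℓ = 2 * ρ * ℓ + 2 * ρ * ℓ := by ring
          rw [e1, e4, e5]
          rw [e2] at h2
          rw [e3] at h3
          linarith
      _ = Real.exp ((1 / 4 - r / 2 - ρ) * L) * (G * Real.exp (ℓ * r - K * (1 + r ^ 2))) := by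
          rw [Real.exp_add]; ring
      _ ≤ _ := mul_le_mul hL h1 (by positivity) (norm_nonneg _)
  have hint := HA g δ r hgdiff hg1 hδ hcen (by rw [Complex.ofReal_re, abs_of_nonneg hr0]; exact hr1)
    (by rw [Complex.ofReal_im, abs_zero]; exact hH.le) x (by rw [abs_of_nonneg hx0]; exact hx1)
  have hbd : ∀ v ∈ Ico (-H) H, nl (‖LL N μ Λ (1 / 2 + T * I + pt x v)‖ * cq N μ T ^ (-(1 / 4 - x / 2))) ≤
      ENNReal.ofReal C2 + nl ‖g (pt x v)‖ := by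
    intro v hv
    have hv2 : v ^ 2 ≤ H ^ 2 := by
      apply sq_le_sq'
      · exact hv.1
      · exact hv.2.le
    rw [← nl_exp]
    refine le_trans (nl_anti (by positivity) ?_) nl_mul
    rw [mul_comm (Real.exp (-C2))]
    rw [hgn, hfL _ (by simpa using hx0), hpow]
    have h1 := (hgam (pt x v) (by simpa using hx0)).2
    have hnorm : ‖pt x v‖ ^ 2 = x ^ 2 + v ^ 2 := by
      rw [Complex.sq_norm, Complex.normSq_apply, pt_re, pt_im]; ring
    rw [hnorm, pt_re] at h1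
    rw [div_mul_eq_mul_div, div_le_iff₀ hGM, mul_assoc, mul_assoc]
    apply mul_le_mul_of_nonneg_left _ (norm_nonneg _)
    calc ‖gaf N μ (1 / 2 + T * I + pt x v)‖ * Real.exp (-C2)
        ≤ G * Real.exp (ℓ * x + K * (1 + (x ^ 2 + v ^ 2))) * Real.exp (-C2) := by gcongr
      _ = G * Real.exp (ℓ * x + K * (1 + (x ^ 2 + v ^ 2)) + -C2) := by
          rw [Real.exp_add (ℓ * x + K * (1 + (x ^ 2 + v ^ 2)))]; ring
      _ ≤ G * Real.exp (-(1 / 4 - x / 2) * L + M) := by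
          apply mul_le_mul_of_nonneg_left (Real.exp_le_exp.2 _) hG.le
          have h2 : (1 / 4 - x / 2) * L ≤ (1 / 4 - x / 2) * (2 * ℓ + 15 * m) :=
            mul_le_mul_of_nonneg_left (by linarith) (by linarith)
          have h5 : (1 / 4 - x / 2) * (15 * m) ≤ 1 * (15 * m) :=
            mul_le_mul_of_nonneg_right (by linarith) (by positivity)
          have h6 : K * (1 + (x ^ 2 + v ^ 2)) ≤ K * (2 + H ^ 2) := by
            apply mul_le_mul_of_nonneg_left _ (by linarith)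
            nlinarith
          have h7 : 0 ≤ ρ * ℓ := by positivity
          have e1 : (1 / 4 - x / 2) * (2 * ℓ + 15 * m) = ℓ / 2 - ℓ * x + (1 / 4 - x / 2) * (15 * m) := by ring
          have e4 : (1 / 2 + 2 * ρ) * ℓ = ℓ / 2 + 2 * (ρ * ℓ) := by ring
          rw [hMd, hC2, e4]
          rw [e1] at h2
          linarith
      _ = _ := by rw [Real.exp_add]; ring
  calc ∫⁻ v in Ico (-H) H, nl (‖LL N μ Λ (1 / 2 + T * I + pt x v)‖ * cq N μ T ^ (-(1 / 4 - x / 2)))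
      ≤ ∫⁻ v in Ico (-H) H, (ENNReal.ofReal C2 + nl ‖g (pt x v)‖) := setLIntegral_mono' measurableSet_Ico hbd
    _ = (∫⁻ _ in Ico (-H) H, ENNReal.ofReal C2) + ∫⁻ v in Ico (-H) H, nl ‖g (pt x v)‖ :=
        lintegral_add_left measurable_const _
    _ ≤ ENNReal.ofReal (C2 * (2 * H)) + ENNReal.ofReal (A * (δ + 1)) := by
        refine add_le_add (le_of_eq ?_) hint
        rw [setLIntegral_const, Real.volume_Ico, ← ENNReal.ofReal_mul hC20.le]
        congr 1; ring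
    _ = ENNReal.ofReal (C2 * (2 * H) + A * (δ + 1)) := (ENNReal.ofReal_add (by positivity) (by positivity)).symm
    _ ≤ _ := by
        apply ENNReal.ofReal_le_ofReal
        rw [hE1, div_le_iff₀ (by positivity)] at hℓE
        have h1 : A * (δ + 1) = A * (4 * ρ) * ℓ + A * (C1 + 1) := by rw [hδd]; ring
        have h2 : A * (4 * ρ) * ℓ ≤ ε / 2 * ℓ := mul_le_mul_of_nonneg_right hρA (by linarith)
        have h3 : ε * ℓ ≤ ε * L := mul_le_mul_of_nonneg_left (by linarith) hε.le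
        rw [h1]
        linarith

end Pool.Agent.V7H83.SC
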