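import Pool.Agent.V7H83.SC.S3

/-!
# Criteria for subconvexity: geometric means, sets of positive measure
-/

set_option autoImplicit false

open Complex Set MeasureTheory Filter Topology
open scoped ComplexConjugate ENNReal

namespace Pool.Agent.V7H83.SC

open Pool.Agent.V7H83.LG

/-- the deficiency of `F` in the mean over the vertical segment at `x` -/
noncomputable def df (F : ℂ → ℂ) (q T H x : ℝ) : ℝ≥0∞ :=
  ∫⁻ v in Ico (-H) H, nl (‖F (1 / 2 + T * I + pt x v)‖ * q ^ (-(1 / 4 - x / 2)))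

/-- the properties of a family of L-functions with their conductors which we use -/
structure Good (c : ℝ) (S : Set ((ℂ → ℂ) × (ℝ → ℝ))) : Prop where
  c_nonneg : 0 ≤ c
  cont : ∀ A ∈ S, Continuous A.1
  one : ∀ A ∈ S, ∀ t, 1 ≤ A.2 t
  move : ∀ A ∈ S, ∀ t v, Real.log (A.2 (t + v)) ≤ Real.log (A.2 t) + c * |v|
  crude : ∀ Q0 : ℝ, ∃ C : ℝ, ∀ A ∈ S, ∀ t, A.2 t ≤ Q0 → ∀ r : ℝ, 0 ≤ r → r ≤ 1 / 2 →
    ‖A.1 (1 / 2 + t * I + r)‖ ≤ C
  near : ∀ a H ε : ℝ, 0 < a → a ≤ 1 / 2 → 0 < H → 0 < ε → ∃ η Q0 : ℝ, 0 < η ∧ 1 < Q0 ∧ ∀ A ∈ S, ∀ T : ℝ,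
    Q0 ≤ A.2 T → ∀ r : ℝ, 0 ≤ r → r ≤ 1 / 2 - a → A.2 T ^ (1 / 4 - r / 2 - η) ≤ ‖A.1 (1 / 2 + T * I + r)‖ →
      ∀ x : ℝ, 0 ≤ x → x ≤ 1 / 2 - a → df A.1 (A.2 T) T H x ≤ ENNReal.ofReal (ε * Real.log (A.2 T))

variable {c : ℝ} {S : Set ((ℂ → ℂ) × (ℝ → ℝ))}

/-- the subconvex bound, uniformly to the left of `1 - a` -/
def All (S : Set ((ℂ → ℂ) × (ℝ → ℝ))) (a : ℝ) : Prop := ∃ δ C : ℝ, 0 < δ ∧ 0 < C ∧ ∀ A ∈ S, ∀ t r : ℝ,
  0 ≤ r → r ≤ 1 / 2 - a → ‖A.1 (1 / 2 + t * I + r)‖ ≤ C * A.2 t ^ (1 / 4 - r / 2 - δ)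

/-- the principle: what is impossible for almost extremal L-functions implies the subconvex bound -/
theorem principle (h : Good c S) {a1 H1 κ0 Q0 : ℝ} (ha1 : 0 < a1) (ha1' : a1 ≤ 1 / 2) (hH1 : 0 < H1)
    (hκ0 : 0 < κ0) (hbad : ∀ A ∈ S, ∀ T : ℝ, Q0 ≤ A.2 T →
      ¬ ∀ x : ℝ, 0 ≤ x → x ≤ 1 / 2 - a1 → df A.1 (A.2 T) T H1 x ≤ ENNReal.ofReal (κ0 * Real.log (A.2 T)))
    {a : ℝ} (ha : 0 < a) (ha' : a ≤ 1 / 2) : All S a := by
  obtain ⟨η, Q1, hη, hQ1, HN⟩ := h.near (min a a1) H1 κ0 (lt_min ha ha1) ((min_le_left _ _).trans ha') hH1 hκ0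
  obtain ⟨C, hC⟩ := h.crude (max Q0 Q1)
  refine ⟨min η (a / 2), max C 1, lt_min hη (by positivity), lt_of_lt_of_le one_pos (le_max_right _ _), ?_⟩
  intro A hA t r hr0 hr1
  have h1 := h.one A hA t
  have hmin : min a a1 ≤ a := min_le_left _ _
  have hmin1 : min a a1 ≤ a1 := min_le_right _ _
  by_cases hq : max Q0 Q1 ≤ A.2 t
  · have h2 : ¬ (A.2 t ^ (1 / 4 - r / 2 - η) ≤ ‖A.1 (1 / 2 + t * I + r)‖) := by
      intro hcon
      refine hbad A hA t ((le_max_left _ _).trans hq) fun x hx0 hx1 => ?_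
      exact HN A hA t ((le_max_right _ _).trans hq) r hr0 (by linarith) hcon x hx0 (by linarith)
    push Not at h2
    refine h2.le.trans ?_
    have h3 : A.2 t ^ (1 / 4 - r / 2 - η) ≤ A.2 t ^ (1 / 4 - r / 2 - min η (a / 2)) :=
      Real.rpow_le_rpow_of_exponent_le h1 (by linarith [min_le_left η (a / 2)])
    refine h3.trans (le_mul_of_one_le_left (by positivity) (le_max_right _ _))
  · push Not at hq
    refine (hC A hA t hq.le r hr0 (by linarith)).trans ((le_max_left C 1).trans ?_)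
    refine le_mul_of_one_le_right (by positivity) (Real.one_le_rpow h1 ?_)
    linarith [min_le_right η (a / 2)]

lemma nl_low {y q δ : ℝ} (hy : 0 ≤ y) (hq : 0 < q) (h : y ≤ q ^ (-δ)) : ENNReal.ofReal (δ * Real.log q) ≤ nl y := by
  have h1 : q ^ (-δ) = Real.exp (-(δ * Real.log q)) := by
    rw [Real.rpow_def_of_pos hq]; congr 1; ring
  rw [h1] at h
  rw [← nl_exp]
  exact nl_anti hy h

lemma df_meas {F : ℂ → ℂ} (hF : Continuous F) (q T x : ℝ) :
    Measurable fun v : ℝ => nl (‖F (1 / 2 + T * I + pt x v)‖ * q ^ (-(1 / 4 - x / 2))) := by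
  refine nl_measurable.comp (Continuous.measurable ?_)
  have := pt_cont x
  fun_prop

/-- a set of positive measure where `F` is subconvex -/
lemma set_bad {F : ℂ → ℂ} (hF : Continuous F) {q T H r δ c0 : ℝ} (hq : 1 < q) (hδ : 0 < δ) (hc0 : 0 < c0)
    (hs : ENNReal.ofReal c0 ≤
      volume {t : ℝ | |t - T| ≤ H ∧ ‖F (1 / 2 + t * I + r)‖ ≤ q ^ (1 / 4 - r / 2 - δ)}) :
    ¬ df F q T (H + 1) r ≤ ENNReal.ofReal (c0 * δ / 2 * Real.log q) := by
  intro hcon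
  have hq0 : 0 < q := by linarith
  have hlog : 0 < Real.log q := Real.log_pos hq
  set E : Set ℝ := {t : ℝ | |t - T| ≤ H ∧ ‖F (1 / 2 + t * I + r)‖ ≤ q ^ (1 / 4 - r / 2 - δ)} with hE
  set E' : Set ℝ := (fun v : ℝ => v + T) ⁻¹' E with hE'
  have hEm : MeasurableSet E := by
    have h1 : Continuous fun t : ℝ => |t - T| := by fun_prop
    have h2 : Continuous fun t : ℝ => ‖F (1 / 2 + t * I + r)‖ := by fun_prop
    exact (measurableSet_le h1.measurable measurable_const).inter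
      (measurableSet_le h2.measurable measurable_const)
  have hE'm : MeasurableSet E' := by
    apply MeasurableSet.preimage hEm
    fun_prop
  have hvol : volume E' = volume E := by
    rw [hE']
    exact (measurePreserving_add_right volume T).measure_preimage hEm.nullMeasurableSet
  have hsub : E' ⊆ Ico (-(H + 1)) (H + 1) := by
    intro v hv
    have h1 : |v + T - T| ≤ H := hv.1
    rw [add_sub_cancel_right, abs_le] at h1
    exact ⟨by linarith [h1.1], by linarith [h1.2]⟩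
  have h1 : ENNReal.ofReal (δ * Real.log q) * volume E' ≤ df F q T (H + 1) r := by
    calc ENNReal.ofReal (δ * Real.log q) * volume E' = ∫⁻ _ in E', ENNReal.ofReal (δ * Real.log q) := by
          rw [setLIntegral_const]
      _ ≤ ∫⁻ v in E', nl (‖F (1 / 2 + T * I + pt r v)‖ * q ^ (-(1 / 4 - r / 2))) := by
          refine setLIntegral_mono' hE'm fun v hv => ?_
          refine nl_low (by positivity) hq0 ?_
          have h2 : ‖F (1 / 2 + ((v + T : ℝ) : ℂ) * I + r)‖ ≤ q ^ (1 / 4 - r / 2 - δ) := hv.2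
          have e : (1 / 2 + ((v + T : ℝ) : ℂ) * I + r : ℂ) = 1 / 2 + T * I + pt r v := by
            unfold pt; push_cast; ring
          rw [e] at h2
          calc ‖F (1 / 2 + T * I + pt r v)‖ * q ^ (-(1 / 4 - r / 2))
              ≤ q ^ (1 / 4 - r / 2 - δ) * q ^ (-(1 / 4 - r / 2)) := by gcongr
            _ = q ^ (-δ) := by
                rw [← Real.rpow_add hq0]; congr 1; ring
      _ ≤ _ := lintegral_mono_set hsub
  rw [hvol] at h1
  have h2 : ENNReal.ofReal (δ * Real.log q) * ENNReal.ofReal c0 ≤ ENNReal.ofReal (c0 * δ / 2 * Real.log q) :=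
    (mul_le_mul_right hs _).trans (h1.trans hcon)
  rw [← ENNReal.ofReal_mul (by positivity), ENNReal.ofReal_le_ofReal_iff (by positivity)] at h2
  have : 0 < δ * Real.log q * c0 := by positivity
  nlinarith

/-- subconvexity on sets of positive measure -/
def OnSets (S : Set ((ℂ → ℂ) × (ℝ → ℝ))) : Prop := ∃ a δ c0 H Q0 : ℝ, 0 < a ∧ a ≤ 1 / 2 ∧ 0 < δ ∧ 0 < c0 ∧
  0 < H ∧ ∀ A ∈ S, ∀ T : ℝ, Q0 ≤ A.2 T → ∃ r : ℝ, 0 ≤ r ∧ r ≤ 1 / 2 - a ∧ ENNReal.ofReal c0 ≤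
    volume {t : ℝ | |t - T| ≤ H ∧ ‖A.1 (1 / 2 + t * I + r)‖ ≤ A.2 T ^ (1 / 4 - r / 2 - δ)}

theorem all_of_sets (h : Good c S) (hs : OnSets S) {a : ℝ} (ha : 0 < a) (ha' : a ≤ 1 / 2) : All S a := by
  obtain ⟨a1, δ, c0, H, Q0, ha1, ha1', hδ, hc0, hH, H1⟩ := hs
  refine principle h (a1 := a1) (H1 := H + 1) (κ0 := c0 * δ / 2) (Q0 := max Q0 2) ha1 ha1' (by linarith)
    (by positivity) ?_ ha ha'
  intro A hA T hT hcon
  obtain ⟨r, hr0, hr1, hr⟩ := H1 A hA T ((le_max_left _ _).trans hT)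
  exact set_bad (h.cont A hA) (lt_of_lt_of_le one_lt_two ((le_max_right _ _).trans hT)) hδ hc0 hr
    (hcon r hr0 hr1)

end Pool.Agent.V7H83.SC
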