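import Pool.Agent.V7H83.SC.S4

/-!
# Criteria for subconvexity: geometric means
-/

set_option autoImplicit false

open Complex Set MeasureTheory Filter Topology
open scoped ComplexConjugate ENNReal

namespace Pool.Agent.V7H83.SC

open Pool.Agent.V7H83.LG

/-- the geometric mean -/
noncomputable def GMs (ν : Measure ℂ) (F : ℂ → ℂ) (t : ℝ) : ℝ :=
  ⨅ n : ℕ, Real.exp (∫ z, Real.log (max ‖F (1 / 2 + t * I + z)‖ (Real.exp (-(n : ℝ)))) ∂ν)

/-- probability measures on a compact part of the right half of the open critical strip -/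
structure Avg (ν : Measure ℂ) (a b : ℝ) : Prop where
  prob : IsProbabilityMeasure ν
  a_pos : 0 < a
  supp : ∀ᵐ z ∂ν, 0 ≤ z.re ∧ z.re ≤ 1 / 2 - a ∧ |z.im| ≤ b

/-- the exponent of the convexity bound -/
noncomputable def cv (ν : Measure ℂ) : ℝ := ∫ z, (1 / 4 - z.re / 2) ∂ν

/-- the mean deficiency -/
noncomputable def mdf (ν : Measure ℂ) (F : ℂ → ℂ) (q t : ℝ) : ℝ≥0∞ :=
  ∫⁻ z, nl (‖F (1 / 2 + t * I + z)‖ * q ^ (-(1 / 4 - z.re / 2))) ∂ν

lemma pw_cont {q : ℝ} (hq : 0 < q) : Continuous fun z : ℂ => q ^ (-(1 / 4 - z.re / 2)) := by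
  have h : Continuous fun z : ℂ => -(1 / 4 - z.re / 2) := by
    have := Complex.continuous_re
    fun_prop
  exact (Real.continuous_const_rpow hq.ne').comp h

variable {ν : Measure ℂ} {a b : ℝ} {F : ℂ → ℂ} {q t : ℝ}

lemma Avg.a_le (h : Avg ν a b) : a ≤ 1 / 2 := by
  haveI := h.prob
  obtain ⟨z, h1, h2, -⟩ := h.supp.exists
  linarith

lemma Avg.b_nonneg (h : Avg ν a b) : 0 ≤ b := by
  haveI := h.prob
  obtain ⟨z, h1, h2, h3⟩ := h.supp.exists
  exact (abs_nonneg _).trans h3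

lemma cv_int (h : Avg ν a b) : Integrable (fun z : ℂ => 1 / 4 - z.re / 2) ν := by
  haveI := h.prob
  refine Integrable.of_bound (C := 1) ?_ ?_
  · have h1 : Continuous fun z : ℂ => 1 / 4 - z.re / 2 := by
      have := Complex.continuous_re
      fun_prop
    exact h1.aestronglyMeasurable
  · filter_upwards [h.supp] with z hz
    rw [Real.norm_eq_abs, abs_le]
    constructor <;> linarith [hz.1, hz.2.1, h.a_pos]

lemma cv_ge (h : Avg ν a b) : a / 2 ≤ cv ν := by
  haveI := h.prob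
  have h1 : ∫ _z, a / 2 ∂ν ≤ cv ν := by
    refine integral_mono_ae (integrable_const _) (cv_int h) ?_
    filter_upwards [h.supp] with z hz
    linarith [hz.1, hz.2.1]
  simpa using h1

lemma cv_le (h : Avg ν a b) : cv ν ≤ 1 / 4 := by
  haveI := h.prob
  have h1 : cv ν ≤ ∫ _z, 1 / 4 ∂ν := by
    refine integral_mono_ae (cv_int h) (integrable_const _) ?_
    filter_upwards [h.supp] with z hz
    linarith [hz.1, hz.2.1]
  simpa using h1

lemma log_int (h : Avg ν a b) (hF : Continuous F) (t : ℝ) (n : ℕ) :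
    Integrable (fun z => Real.log (max ‖F (1 / 2 + t * I + z)‖ (Real.exp (-(n : ℝ))))) ν := by
  haveI := h.prob
  have hK : IsCompact (Icc (0 : ℝ) (1 / 2) ×ℂ Icc (-b) b) := isCompact_Icc.reProdIm isCompact_Icc
  have hc : Continuous fun z : ℂ => Real.log (max ‖F (1 / 2 + t * I + z)‖ (Real.exp (-(n : ℝ)))) := by
    refine Continuous.log (by fun_prop) fun z => ?_
    exact (lt_of_lt_of_le (Real.exp_pos _) (le_max_right _ _)).ne'
  obtain ⟨C, hC⟩ := hK.exists_bound_of_continuousOn hc.continuousOn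
  refine Integrable.of_bound hc.aestronglyMeasurable C ?_
  filter_upwards [h.supp] with z hz
  refine hC z ⟨⟨hz.1, ?_⟩, abs_le.1 hz.2.2⟩
  linarith [hz.2.1, h.a_pos]

/-- small deficiency, large geometric mean -/
theorem gm_low (h : Avg ν a b) (hF : Continuous F) (hq : 0 < q) {lam : ℝ} (hl : 0 ≤ lam)
    (hm : mdf ν F q t ≤ ENNReal.ofReal lam) : q ^ (cv ν) * Real.exp (-lam) ≤ GMs ν F t := by
  haveI := h.prob
  have hmeas : Measurable fun z : ℂ => nl (‖F (1 / 2 + t * I + z)‖ * q ^ (-(1 / 4 - z.re / 2))) := by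
    refine nl_measurable.comp (Continuous.measurable ?_)
    have := pw_cont hq
    fun_prop
  have hne : mdf ν F q t ≠ ⊤ := (hm.trans_lt ENNReal.ofReal_lt_top).ne
  have hfin := ae_lt_top hmeas hne
  have hwint := integrable_toReal_of_lintegral_ne_top hmeas.aemeasurable hne
  have hw : ∫ z, (nl (‖F (1 / 2 + t * I + z)‖ * q ^ (-(1 / 4 - z.re / 2)))).toReal ∂ν ≤ lam := by
    rw [integral_toReal hmeas.aemeasurable hfin]
    exact ENNReal.toReal_le_of_le_ofReal hl hm
  refine le_ciInf fun n => ?_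
  rw [Real.rpow_def_of_pos hq, ← Real.exp_add]
  apply Real.exp_le_exp.2
  have h1 : ∫ z, ((1 / 4 - z.re / 2) * Real.log q -
      (nl (‖F (1 / 2 + t * I + z)‖ * q ^ (-(1 / 4 - z.re / 2)))).toReal) ∂ν ≤
      ∫ z, Real.log (max ‖F (1 / 2 + t * I + z)‖ (Real.exp (-(n : ℝ)))) ∂ν := by
    refine integral_mono_ae (((cv_int h).mul_const _).sub hwint) (log_int h hF t n) ?_
    filter_upwards [hfin] with z hz
    have hq1 : 0 < q ^ (-(1 / 4 - z.re / 2)) := Real.rpow_pos_of_pos hq _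
    have hne0 : ‖F (1 / 2 + t * I + z)‖ ≠ 0 := by
      intro h0
      rw [h0, zero_mul] at hz
      unfold nl at hz
      simp at hz
    have hpos : 0 < ‖F (1 / 2 + t * I + z)‖ := lt_of_le_of_ne (norm_nonneg _) (Ne.symm hne0)
    have h2 : nl (‖F (1 / 2 + t * I + z)‖ * q ^ (-(1 / 4 - z.re / 2))) =
        ENNReal.ofReal (-Real.log (‖F (1 / 2 + t * I + z)‖ * q ^ (-(1 / 4 - z.re / 2)))) := by
      unfold nl
      rw [if_neg (mul_pos hpos hq1).ne']
    have h3 : -Real.log (‖F (1 / 2 + t * I + z)‖ * q ^ (-(1 / 4 - z.re / 2))) ≤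
        (nl (‖F (1 / 2 + t * I + z)‖ * q ^ (-(1 / 4 - z.re / 2)))).toReal := by
      rw [h2, ENNReal.toReal_ofReal']
      exact le_max_left _ _
    rw [Real.log_mul hne0 hq1.ne', Real.log_rpow hq] at h3
    have h4 : Real.log ‖F (1 / 2 + t * I + z)‖ ≤
        Real.log (max ‖F (1 / 2 + t * I + z)‖ (Real.exp (-(n : ℝ)))) :=
      Real.log_le_log hpos (le_max_left _ _)
    linarith
  refine le_trans ?_ h1
  rw [integral_sub ((cv_int h).mul_const _) hwint, integral_mul_const]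
  unfold cv
  linarith

/-- pointwise bounds give bounds for the mean -/
theorem gm_up (h : Avg ν a b) (hF : Continuous F) (hq : 1 ≤ q) {C δ : ℝ} (hC : 1 ≤ C) (hδ : δ ≤ a / 2)
    (hb : ∀ᵐ z ∂ν, ‖F (1 / 2 + t * I + z)‖ ≤ C * q ^ (1 / 4 - z.re / 2 - δ)) :
    GMs ν F t ≤ C * q ^ (cv ν - δ) := by
  haveI := h.prob
  have hq0 : 0 < q := by linarith
  have hbdd : BddBelow (Set.range fun n : ℕ =>
      Real.exp (∫ z, Real.log (max ‖F (1 / 2 + t * I + z)‖ (Real.exp (-(n : ℝ)))) ∂ν)) :=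
    ⟨0, by rintro _ ⟨n, rfl⟩; exact (Real.exp_pos _).le⟩
  refine (ciInf_le hbdd 0).trans ?_
  have e : C * q ^ (cv ν - δ) = Real.exp (Real.log C + (cv ν - δ) * Real.log q) := by
    rw [Real.exp_add, Real.exp_log (by linarith), Real.rpow_def_of_pos hq0]
    congr 2
    ring
  rw [e]
  apply Real.exp_le_exp.2
  have hi : Integrable (fun z : ℂ => Real.log C + (1 / 4 - z.re / 2 - δ) * Real.log q) ν :=
    (integrable_const _).add (((cv_int h).sub (integrable_const _)).mul_const _)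
  have h1 : ∫ z, Real.log (max ‖F (1 / 2 + t * I + z)‖ (Real.exp (-((0 : ℕ) : ℝ)))) ∂ν ≤
      ∫ z, (Real.log C + (1 / 4 - z.re / 2 - δ) * Real.log q) ∂ν := by
    refine integral_mono_ae (log_int h hF t 0) hi ?_
    filter_upwards [hb, h.supp] with z hz hs
    have h2 : 1 ≤ q ^ (1 / 4 - z.re / 2 - δ) := Real.one_le_rpow hq (by linarith [hs.2.1])
    have h3 : Real.log C + (1 / 4 - z.re / 2 - δ) * Real.log q = Real.log (C * q ^ (1 / 4 - z.re / 2 - δ)) := by
      rw [Real.log_mul (by linarith) (by linarith), Real.log_rpow hq0]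
    rw [h3]
    apply Real.log_le_log (lt_of_lt_of_le (Real.exp_pos _) (le_max_right _ _))
    refine max_le hz ?_
    simp only [CharP.cast_eq_zero, neg_zero, Real.exp_zero]
    nlinarith
  refine h1.trans (le_of_eq ?_)
  have e2 : (fun z : ℂ => Real.log C + (1 / 4 - z.re / 2 - δ) * Real.log q) =
      fun z : ℂ => (1 / 4 - z.re / 2) * Real.log q + (Real.log C - δ * Real.log q) := by
    funext z; ring
  rw [e2, integral_add ((cv_int h).mul_const _) (integrable_const _), integral_mul_const]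
  simp only [integral_const, probReal_univ, smul_eq_mul, one_mul]
  unfold cv
  ring

lemma mdf_meas (hF : Continuous F) (hq : 0 < q) :
    Measurable fun p : ℝ × ℂ => nl (‖F (1 / 2 + p.1 * I + p.2)‖ * q ^ (-(1 / 4 - p.2.re / 2))) := by
  refine nl_measurable.comp (Continuous.measurable ?_)
  have h1 := (pw_cont hq).comp (continuous_snd (X := ℝ) (Y := ℂ))
  have h2 : Continuous fun p : ℝ × ℂ => ‖F (1 / 2 + p.1 * I + p.2)‖ := by fun_prop
  exact h2.mul h1

/-- the average of the mean deficiency over an interval -/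
theorem mdf_avg (h : Avg ν a b) (hF : Continuous F) (hq : 0 < q) {T H : ℝ} {B : ℝ≥0∞}
    (hB : ∀ x : ℝ, 0 ≤ x → x ≤ 1 / 2 - a → df F q T (H + b + 1) x ≤ B) :
    ∫⁻ t in Icc (T - H) (T + H), mdf ν F q t ≤ B := by
  haveI := h.prob
  unfold mdf
  rw [lintegral_lintegral_swap (mdf_meas hF hq).aemeasurable]
  calc ∫⁻ z, (∫⁻ t in Icc (T - H) (T + H), nl (‖F (1 / 2 + t * I + z)‖ * q ^ (-(1 / 4 - z.re / 2)))) ∂ν
      ≤ ∫⁻ _z, B ∂ν := by
        refine lintegral_mono_ae ?_
        filter_upwards [h.supp] with z hz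
        refine le_trans ?_ (hB z.re hz.1 hz.2.1)
        unfold df
        rw [← lintegral_indicator measurableSet_Icc, ← lintegral_indicator measurableSet_Ico,
          ← lintegral_sub_right_eq_self ((Ico (-(H + b + 1)) (H + b + 1)).indicator
            (fun v => nl (‖F (1 / 2 + T * I + pt z.re v)‖ * q ^ (-(1 / 4 - z.re / 2))))) (T - z.im)]
        refine lintegral_mono fun t => ?_
        by_cases ht : t ∈ Icc (T - H) (T + H)
        · have hzb := abs_le.1 hz.2.2
          have ht' : t - (T - z.im) ∈ Ico (-(H + b + 1)) (H + b + 1) :=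
            ⟨by linarith [ht.1], by linarith [ht.2]⟩
          rw [indicator_of_mem ht, indicator_of_mem ht']
          have e : (1 / 2 + T * I + pt z.re (t - (T - z.im)) : ℂ) = 1 / 2 + t * I + z := by
            apply Complex.ext <;> simp [pt]
            ring
          rw [e]
        · rw [indicator_of_notMem ht]
          exact zero_le
    _ = B := by rw [lintegral_const, measure_univ, mul_one]

/-- the exceptional set -/
theorem exc (h : Avg ν a b) (hF : Continuous F) (hq : 1 < q) {T H ε κ0 : ℝ} (hε : 0 < ε) (hκ0 : 0 < κ0)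
    (hB : ∀ x : ℝ, 0 ≤ x → x ≤ 1 / 2 - a → df F q T (H + b + 1) x ≤ ENNReal.ofReal (κ0 * Real.log q)) :
    volume {t : ℝ | |t - T| ≤ H ∧ GMs ν F t < q ^ (cv ν - ε)} ≤ ENNReal.ofReal (κ0 / ε) := by
  have hq0 : 0 < q := by linarith
  have hlog : 0 < Real.log q := Real.log_pos hq
  have h1 := mdf_avg h hF hq0 hB
  set E : Set ℝ := {t : ℝ | |t - T| ≤ H ∧ GMs ν F t < q ^ (cv ν - ε)} with hE
  have hsub : E ⊆ {t : ℝ | ENNReal.ofReal (ε * Real.log q) ≤ mdf ν F q t} ∩ Icc (T - H) (T + H) := by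
    intro t ht
    refine ⟨?_, ?_⟩
    · by_contra hcon
      simp only [mem_setOf_eq, not_le] at hcon
      have h2 := gm_low h hF hq0 (by positivity) hcon.le
      have h3 : q ^ cv ν * Real.exp (-(ε * Real.log q)) = q ^ (cv ν - ε) := by
        rw [Real.rpow_def_of_pos hq0, Real.rpow_def_of_pos hq0, ← Real.exp_add]
        congr 1; ring
      rw [h3] at h2
      exact absurd ht.2 (not_lt.2 h2)
    · have := abs_le.1 ht.1
      exact ⟨by linarith [this.1], by linarith [this.2]⟩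
  have hm : Measurable fun t : ℝ => mdf ν F q t := by
    haveI := h.prob
    exact (mdf_meas hF hq0).lintegral_prod_right'
  have h2 : ENNReal.ofReal (ε * Real.log q) * volume E ≤ ENNReal.ofReal (κ0 * Real.log q) := by
    refine le_trans ?_ h1
    refine le_trans ?_ (mul_meas_ge_le_lintegral₀ (μ := volume.restrict (Icc (T - H) (T + H))) hm.aemeasurable
      (ENNReal.ofReal (ε * Real.log q)))
    refine mul_le_mul' le_rfl ?_
    rw [Measure.restrict_apply (measurableSet_le measurable_const hm)]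
    exact measure_mono hsub
  have h3 : ENNReal.ofReal (κ0 / ε) = ENNReal.ofReal (κ0 * Real.log q) / ENNReal.ofReal (ε * Real.log q) := by
    rw [← ENNReal.ofReal_div_of_pos (by positivity)]
    congr 1
    field_simp
  rw [h3, ENNReal.le_div_iff_mul_le (Or.inl (by simp; positivity)) (Or.inl ENNReal.ofReal_ne_top), mul_comm]
  exact h2

/-- the bound in the mean -/
def InMean (S : Set ((ℂ → ℂ) × (ℝ → ℝ))) (ν : Measure ℂ) : Prop := ∃ δ C : ℝ, 0 < δ ∧ ∀ A ∈ S, ∀ t : ℝ,
  GMs ν A.1 t ≤ C * A.2 t ^ (cv ν - δ)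

/-- the bound in the mean on sets of positive measure -/
def InMeanSets (S : Set ((ℂ → ℂ) × (ℝ → ℝ))) (ν : Measure ℂ) : Prop := ∃ δ c0 H Q0 : ℝ, 0 < δ ∧ 0 < c0 ∧
  0 < H ∧ ∀ A ∈ S, ∀ T : ℝ, Q0 ≤ A.2 T → ENNReal.ofReal c0 ≤
    volume {t : ℝ | |t - T| ≤ H ∧ GMs ν A.1 t ≤ A.2 T ^ (cv ν - δ)}

variable {c : ℝ} {S : Set ((ℂ → ℂ) × (ℝ → ℝ))}

theorem all_of_mean (h : Good c S) (hν : Avg ν a b) (hs : InMeanSets S ν) {a' : ℝ} (ha : 0 < a')
    (ha' : a' ≤ 1 / 2) : All S a' := by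
  obtain ⟨δ, c0, H, Q0, hδ, hc0, hH, H1⟩ := hs
  have hb := hν.b_nonneg
  refine principle h (a1 := a) (H1 := H + b + 1) (κ0 := c0 * δ / 4) (Q0 := max Q0 2) hν.a_pos hν.a_le
    (by linarith) (by positivity) ?_ ha ha'
  intro A hA T hT hcon
  have hq : 1 < A.2 T := lt_of_lt_of_le one_lt_two ((le_max_right _ _).trans hT)
  have h1 := exc hν (h.cont A hA) hq (ε := δ / 2) (by positivity) (by positivity) hcon
  have h2 := H1 A hA T ((le_max_left _ _).trans hT)
  have h3 : volume {t : ℝ | |t - T| ≤ H ∧ GMs ν A.1 t ≤ A.2 T ^ (cv ν - δ)} ≤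
      volume {t : ℝ | |t - T| ≤ H ∧ GMs ν A.1 t < A.2 T ^ (cv ν - δ / 2)} := by
    refine measure_mono fun t ht => ⟨ht.1, ht.2.trans_lt ?_⟩
    exact Real.rpow_lt_rpow_of_exponent_lt hq (by linarith)
  have h4 := h2.trans (h3.trans h1)
  rw [ENNReal.ofReal_le_ofReal_iff (by positivity)] at h4
  have h5 : c0 * δ / 4 / (δ / 2) = c0 / 2 := by field_simp; ring
  rw [h5] at h4
  linarith

lemma move_pow (h : Good c S) {A : (ℂ → ℂ) × (ℝ → ℝ)} (hA : A ∈ S) (t v : ℝ) {e : ℝ} (he : 0 ≤ e) (he1 : e ≤ 1) :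
    A.2 (t + v) ^ e ≤ Real.exp (c * |v|) * A.2 t ^ e := by
  have h0 : 0 < A.2 t := lt_of_lt_of_le one_pos (h.one A hA t)
  have h0' : 0 < A.2 (t + v) := lt_of_lt_of_le one_pos (h.one A hA _)
  rw [Real.rpow_def_of_pos h0, Real.rpow_def_of_pos h0', ← Real.exp_add]
  apply Real.exp_le_exp.2
  have h1 := h.move A hA t v
  have h2 : 0 ≤ c * |v| := mul_nonneg h.c_nonneg (abs_nonneg v)
  have h3 : Real.log (A.2 (t + v)) * e ≤ (Real.log (A.2 t) + c * |v|) * e := mul_le_mul_of_nonneg_right h1 he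
  have h4 : c * |v| * e ≤ c * |v| * 1 := mul_le_mul_of_nonneg_left he1 h2
  linarith

theorem mean_of_all (h : Good c S) (hν : Avg ν a b) (hs : All S a) : InMean S ν := by
  obtain ⟨δ, C, hδ, hC, H1⟩ := hs
  have hb := hν.b_nonneg
  have hcb : 0 ≤ c * b := mul_nonneg h.c_nonneg hb
  have ha := hν.a_pos
  have ha1 := hν.a_le
  refine ⟨min δ (a / 2), max C 1 * Real.exp (c * b), lt_min hδ (by positivity), fun A hA t => ?_⟩
  refine gm_up hν (h.cont A hA) (h.one A hA t) ?_ (min_le_right _ _) ?_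
  · have h1 : 1 ≤ Real.exp (c * b) := Real.one_le_exp hcb
    have h2 : (1 : ℝ) ≤ max C 1 := le_max_right _ _
    nlinarith
  · filter_upwards [hν.supp] with z hz
    have e : (1 / 2 + t * I + z : ℂ) = 1 / 2 + ((t + z.im : ℝ) : ℂ) * I + z.re := by
      apply Complex.ext <;> simp
    rw [e]
    refine (H1 A hA (t + z.im) z.re hz.1 hz.2.1).trans ?_
    have h1 := h.one A hA (t + z.im)
    have h2 : A.2 (t + z.im) ^ (1 / 4 - z.re / 2 - δ) ≤ A.2 (t + z.im) ^ (1 / 4 - z.re / 2 - min δ (a / 2)) :=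
      Real.rpow_le_rpow_of_exponent_le h1 (by linarith [min_le_left δ (a / 2)])
    have h3 := move_pow h hA t z.im (e := 1 / 4 - z.re / 2 - min δ (a / 2))
      (by linarith [min_le_right δ (a / 2), hz.2.1]) (by
        have : 0 ≤ min δ (a / 2) := le_min hδ.le (by positivity)
        linarith [hz.1])
    have h4 : Real.exp (c * |z.im|) ≤ Real.exp (c * b) := by
      apply Real.exp_le_exp.2
      exact mul_le_mul_of_nonneg_left hz.2.2 h.c_nonneg
    have h5 : 0 ≤ A.2 t ^ (1 / 4 - z.re / 2 - min δ (a / 2)) :=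
      Real.rpow_nonneg (by linarith [h.one A hA t]) _
    calc C * A.2 (t + z.im) ^ (1 / 4 - z.re / 2 - δ)
        ≤ max C 1 * (Real.exp (c * b) * A.2 t ^ (1 / 4 - z.re / 2 - min δ (a / 2))) := by
          refine mul_le_mul (le_max_left _ _) (h2.trans (h3.trans ?_)) ?_ (by positivity)
          · exact mul_le_mul_of_nonneg_right h4 h5
          · exact Real.rpow_nonneg (by linarith) _
      _ = _ := by ring

/-- absorbing constants -/
lemma absorb {C δ : ℝ} (hδ : 0 < δ) : ∃ Q0 : ℝ, 1 < Q0 ∧ ∀ q : ℝ, Q0 ≤ q → C ≤ q ^ δ := by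
  refine ⟨Real.exp ((|C| + 1) / δ), Real.one_lt_exp_iff.2 (by positivity), fun q hq => ?_⟩
  have hq0 : 0 < q := (Real.exp_pos _).trans_le hq
  have h1 : (|C| + 1) / δ ≤ Real.log q := (Real.le_log_iff_exp_le hq0).2 hq
  rw [Real.rpow_def_of_pos hq0]
  have h2 : |C| + 1 ≤ Real.log q * δ := by
    rwa [div_le_iff₀ hδ] at h1
  have h3 := Real.add_one_le_exp (Real.log q * δ)
  linarith [le_abs_self C]

theorem sets_of_mean (h : Good c S) (hν : Avg ν a b) (hs : InMean S ν) : InMeanSets S ν := by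
  obtain ⟨δ, C, hδ, H1⟩ := hs
  have ha := hν.a_pos
  have hcv := cv_ge hν
  have hcv1 := cv_le hν
  obtain ⟨δ', hδ'⟩ : ∃ δ' : ℝ, δ' = min δ (a / 2) := ⟨_, rfl⟩
  have hδ'0 : 0 < δ' := by rw [hδ']; exact lt_min hδ (by positivity)
  have hδ'1 : δ' ≤ δ := by rw [hδ']; exact min_le_left _ _
  have hδ'2 : δ' ≤ a / 2 := by rw [hδ']; exact min_le_right _ _
  obtain ⟨Q0, hQ0, HQ⟩ := absorb (C := max C 1 * Real.exp c) (δ := δ' / 2) (by positivity)
  refine ⟨δ' / 2, 1, 1, Q0, by positivity, one_pos, one_pos, fun A hA T hT => ?_⟩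
  have h1 := h.one A hA T
  have hq0 : 0 < A.2 T := by linarith
  have hsub : Icc (T - 1) (T + 1) ⊆ {t : ℝ | |t - T| ≤ 1 ∧ GMs ν A.1 t ≤ A.2 T ^ (cv ν - δ' / 2)} := by
    intro t ht
    have hv : |t - T| ≤ 1 := abs_le.2 ⟨by linarith [ht.1], by linarith [ht.2]⟩
    refine ⟨hv, (H1 A hA t).trans ?_⟩
    have h2 := h.one A hA t
    have h3 : A.2 t ^ (cv ν - δ) ≤ A.2 t ^ (cv ν - δ') := Real.rpow_le_rpow_of_exponent_le h2 (by linarith)
    have h4 := move_pow h hA T (t - T) (e := cv ν - δ') (by linarith) (by linarith)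
    rw [add_sub_cancel] at h4
    have h5 : Real.exp (c * |t - T|) ≤ Real.exp c := by
      apply Real.exp_le_exp.2
      exact mul_le_of_le_one_right h.c_nonneg hv
    have h6 : 0 ≤ A.2 T ^ (cv ν - δ') := Real.rpow_nonneg hq0.le _
    have h7 : 0 ≤ A.2 t ^ (cv ν - δ) := Real.rpow_nonneg (by linarith) _
    calc C * A.2 t ^ (cv ν - δ) ≤ max C 1 * A.2 t ^ (cv ν - δ) :=
          mul_le_mul_of_nonneg_right (le_max_left _ _) h7
      _ ≤ max C 1 * (Real.exp c * A.2 T ^ (cv ν - δ')) := by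
          refine mul_le_mul_of_nonneg_left (h3.trans (h4.trans ?_)) (by positivity)
          exact mul_le_mul_of_nonneg_right h5 h6
      _ = (max C 1 * Real.exp c) * A.2 T ^ (cv ν - δ') := by ring
      _ ≤ A.2 T ^ (δ' / 2) * A.2 T ^ (cv ν - δ') := mul_le_mul_of_nonneg_right (HQ _ hT) h6
      _ = _ := by rw [← Real.rpow_add hq0]; congr 1; ring
  refine le_trans ?_ (measure_mono hsub)
  rw [Real.volume_Icc]
  exact ENNReal.ofReal_le_ofReal (by linarith)

end Pool.Agent.V7H83.SC
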