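import Pool.Agent.V7H83.SC.S5

/-!
# Criteria for subconvexity: intervals and products
-/

set_option autoImplicit false

open Complex Set MeasureTheory Filter Topology
open scoped ComplexConjugate ENNReal

namespace Pool.Agent.V7H83.SC

open Pool.Agent.V7H83.LG

variable {F : ℂ → ℂ} {q T : ℝ} {c : ℝ} {S : Set ((ℂ → ℂ) × (ℝ → ℝ))}

theorem int_low (hF : Continuous F) (hq : 1 < q) {h κ0 : ℝ} (hh : 0 < h) (hκ0 : 0 < κ0)
    (hd : df F q T (h + 1) 0 ≤ ENNReal.ofReal (κ0 * Real.log q)) :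
    (h / 4 - κ0) * Real.log q ≤ ∫ u in T..(T + h), Real.log ‖F (1 / 2 + u * I)‖ := by
  have hq0 : 0 < q := by linarith
  have hlog : 0 < Real.log q := Real.log_pos hq
  obtain ⟨p, hp⟩ : ∃ p : ℝ, p = q ^ (-(1 / 4 : ℝ)) := ⟨_, rfl⟩
  have hp0 : 0 < p := by rw [hp]; exact Real.rpow_pos_of_pos hq0 _
  have hlogp : Real.log p = -(1 / 4) * Real.log q := by rw [hp, Real.log_rpow hq0]
  obtain ⟨y, hy⟩ : ∃ y : ℝ → ℝ, y = fun v => ‖F (1 / 2 + ((T + v : ℝ) : ℂ) * I)‖ := ⟨_, rfl⟩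
  have hyc : Continuous y := by rw [hy]; fun_prop
  have hy0 : ∀ v, 0 ≤ y v := fun v => by rw [hy]; exact norm_nonneg _
  have hm : Measurable fun v => nl (y v * p) := nl_measurable.comp (hyc.mul continuous_const).measurable
  have h1 : ∫⁻ v in Ioc 0 h, nl (y v * p) ≤ ENNReal.ofReal (κ0 * Real.log q) := by
    refine le_trans ?_ hd
    unfold df
    have hsub : Ioc (0 : ℝ) h ⊆ Ico (-(h + 1)) (h + 1) := fun v hv =>
      ⟨by linarith [hv.1], by linarith [hv.2]⟩
    refine le_trans (lintegral_mono_set hsub) (le_of_eq ?_)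
    refine lintegral_congr fun v => ?_
    rw [hy, hp]
    simp only [pt]
    congr 3
    · congr 1
      push_cast
      ring
    · ring
  have hne : ∫⁻ v in Ioc 0 h, nl (y v * p) ≠ ⊤ := (h1.trans_lt ENNReal.ofReal_lt_top).ne
  have hfin := ae_lt_top hm hne
  have hwint := integrable_toReal_of_lintegral_ne_top hm.aemeasurable hne
  have hw : ∫ v in Ioc 0 h, (nl (y v * p)).toReal ≤ κ0 * Real.log q := by
    rw [integral_toReal hm.aemeasurable hfin]
    exact ENNReal.toReal_le_of_le_ofReal (by positivity) h1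
  obtain ⟨B, hB⟩ := (isCompact_Icc (a := (0 : ℝ)) (b := h)).exists_bound_of_continuousOn
    (hyc.mul (continuous_const (y := p))).continuousOn
  have key : ∀ᵐ v ∂(volume.restrict (Ioc 0 h)), 1 / 4 * Real.log q - (nl (y v * p)).toReal ≤ Real.log (y v) ∧
      ‖Real.log (y v)‖ ≤ (nl (y v * p)).toReal + (|B| + 1 / 4 * Real.log q) := by
    filter_upwards [hfin, ae_restrict_mem measurableSet_Ioc] with v hv hvm
    have hne0 : y v ≠ 0 := by
      intro h0
      rw [h0, zero_mul] at hv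
      unfold nl at hv
      simp at hv
    have hpos : 0 < y v := lt_of_le_of_ne (hy0 v) (Ne.symm hne0)
    have h2 : nl (y v * p) = ENNReal.ofReal (-Real.log (y v * p)) := by
      unfold nl
      rw [if_neg (mul_pos hpos hp0).ne']
    have h3 : -Real.log (y v * p) ≤ (nl (y v * p)).toReal := by
      rw [h2, ENNReal.toReal_ofReal']
      exact le_max_left _ _
    rw [Real.log_mul hne0 hp0.ne', hlogp] at h3
    have h4 : 1 / 4 * Real.log q - (nl (y v * p)).toReal ≤ Real.log (y v) := by linarith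
    refine ⟨h4, ?_⟩
    have h5 : y v * p ≤ |B| := by
      have := hB v ⟨hvm.1.le, hvm.2⟩
      rw [Real.norm_eq_abs] at this
      exact (le_abs_self _).trans (this.trans (le_abs_self _))
    have h6 : Real.log (y v * p) ≤ |B| := by
      have := Real.add_one_le_exp (Real.log (y v * p))
      rw [Real.exp_log (mul_pos hpos hp0)] at this
      linarith
    rw [Real.log_mul hne0 hp0.ne', hlogp] at h6
    have h7 : 0 ≤ (nl (y v * p)).toReal := ENNReal.toReal_nonneg
    rw [Real.norm_eq_abs, abs_le]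
    have := abs_nonneg B
    constructor <;> linarith
  have hlm : AEStronglyMeasurable (fun v => Real.log (y v)) (volume.restrict (Ioc 0 h)) :=
    (Real.measurable_log.comp hyc.measurable).aestronglyMeasurable
  have hlint : IntegrableOn (fun v => Real.log (y v)) (Ioc 0 h) := by
    refine Integrable.mono' (hwint.add (integrable_const (|B| + 1 / 4 * Real.log q))) hlm ?_
    filter_upwards [key] with v hv
    exact hv.2
  have h8 : ∫ v in Ioc 0 h, (1 / 4 * Real.log q - (nl (y v * p)).toReal) ≤ ∫ v in Ioc 0 h, Real.log (y v) := by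
    refine integral_mono_ae ((integrable_const _).sub hwint) hlint ?_
    filter_upwards [key] with v hv
    exact hv.1
  rw [integral_sub (integrable_const _) hwint] at h8
  have h9 : ∫ u in T..(T + h), Real.log ‖F (1 / 2 + u * I)‖ = ∫ v in Ioc 0 h, Real.log (y v) := by
    have := intervalIntegral.integral_comp_add_left (a := 0) (b := h)
      (fun u : ℝ => Real.log ‖F (1 / 2 + u * I)‖) T
    rw [add_zero] at this
    rw [← this, intervalIntegral.integral_of_le hh.le, hy]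
  rw [h9]
  refine le_trans ?_ h8
  rw [setIntegral_const]
  simp only [Measure.real, Real.volume_Ioc, sub_zero, smul_eq_mul]
  rw [ENNReal.toReal_ofReal hh.le]
  linarith

/-- the bound for the integrals over intervals of length `h` -/
def OnInt (S : Set ((ℂ → ℂ) × (ℝ → ℝ))) (h : ℝ) : Prop := ∃ δ C : ℝ, 0 < δ ∧ ∀ A ∈ S, ∀ t : ℝ,
  ∫ u in t..(t + h), Real.log ‖A.1 (1 / 2 + u * I)‖ ≤ (h / 4 - δ) * Real.log (A.2 t) + C

theorem all_of_int (hS : Good c S) {h : ℝ} (hh : 0 < h) (hs : OnInt S h) {a : ℝ} (ha : 0 < a)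
    (ha' : a ≤ 1 / 2) : All S a := by
  obtain ⟨δ, C, hδ, H1⟩ := hs
  refine principle hS (a1 := 1 / 2) (H1 := h + 1) (κ0 := δ / 2) (Q0 := max 2 (Real.exp ((2 * |C| + 1) / δ)))
    (by norm_num) le_rfl (by linarith) (by positivity) ?_ ha ha'
  intro A hA T hT hcon
  have hq : 1 < A.2 T := lt_of_lt_of_le one_lt_two ((le_max_left _ _).trans hT)
  have h1 := int_low (hS.cont A hA) hq hh (by positivity) (hcon 0 le_rfl (by norm_num))
  have h2 := H1 A hA T
  have h3 : (2 * |C| + 1) / δ ≤ Real.log (A.2 T) :=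
    (Real.le_log_iff_exp_le (by linarith)).2 ((le_max_right _ _).trans hT)
  rw [div_le_iff₀ hδ] at h3
  have h4 := le_abs_self C
  nlinarith

theorem int_of_all (hS : Good c S) {h : ℝ} (hh : 0 < h) (hs : All S (1 / 2)) : OnInt S h := by
  obtain ⟨δ, C, hδ, hC, H1⟩ := hs
  obtain ⟨δ', hδ'⟩ : ∃ δ' : ℝ, δ' = min δ (1 / 4) := ⟨_, rfl⟩
  have hδ'0 : 0 < δ' := by rw [hδ']; exact lt_min hδ (by norm_num)
  have hδ'1 : δ' ≤ δ := by rw [hδ']; exact min_le_left _ _
  have hδ'2 : δ' ≤ 1 / 4 := by rw [hδ']; exact min_le_right _ _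
  obtain ⟨D, hD⟩ : ∃ D : ℝ, D = Real.log (max C 1) + c * h := ⟨_, rfl⟩
  have hC1 : (1 : ℝ) ≤ max C 1 := le_max_right _ _
  have hD0 : 0 ≤ D := by
    rw [hD]
    have := Real.log_nonneg hC1
    have := mul_nonneg hS.c_nonneg hh.le
    linarith
  refine ⟨h * δ', h * D, by positivity, fun A hA t => ?_⟩
  have hQt := hS.one A hA t
  have hlogt := Real.log_nonneg hQt
  have hR : 0 ≤ D + (1 / 4 - δ') * Real.log (A.2 t) := by
    have : 0 ≤ (1 / 4 - δ') * Real.log (A.2 t) := mul_nonneg (by linarith) hlogt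
    linarith
  have hpt : ∀ u ∈ Icc t (t + h), Real.log ‖A.1 (1 / 2 + u * I)‖ ≤ D + (1 / 4 - δ') * Real.log (A.2 t) := by
    intro u hu
    by_cases h0 : ‖A.1 (1 / 2 + u * I)‖ = 0
    · rw [h0, Real.log_zero]; exact hR
    have hpos : 0 < ‖A.1 (1 / 2 + u * I)‖ := lt_of_le_of_ne (norm_nonneg _) (Ne.symm h0)
    have h1 := H1 A hA u 0 le_rfl (by norm_num)
    have hQu := hS.one A hA u
    have hQu0 : 0 < A.2 u := by linarith
    rw [Complex.ofReal_zero, add_zero] at h1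
    have h2 : ‖A.1 (1 / 2 + u * I)‖ ≤ max C 1 * A.2 u ^ (1 / 4 - δ') := by
      refine h1.trans (mul_le_mul (le_max_left _ _) ?_ (Real.rpow_nonneg hQu0.le _) (by positivity))
      exact Real.rpow_le_rpow_of_exponent_le hQu (by linarith)
    have h3 := Real.log_le_log hpos h2
    rw [Real.log_mul (by positivity) (Real.rpow_pos_of_pos hQu0 _).ne', Real.log_rpow hQu0] at h3
    have h4 := hS.move A hA t (u - t)
    rw [add_sub_cancel] at h4
    have h5 : |u - t| ≤ h := abs_le.2 ⟨by linarith [hu.1], by linarith [hu.2]⟩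
    have h6 : c * |u - t| ≤ c * h := mul_le_mul_of_nonneg_left h5 hS.c_nonneg
    have h7 : (1 / 4 - δ') * Real.log (A.2 u) ≤ (1 / 4 - δ') * (Real.log (A.2 t) + c * h) :=
      mul_le_mul_of_nonneg_left (by linarith) (by linarith)
    have h8 : (1 / 4 - δ') * (c * h) ≤ 1 * (c * h) :=
      mul_le_mul_of_nonneg_right (by linarith) (mul_nonneg hS.c_nonneg hh.le)
    rw [hD]
    nlinarith
  by_cases hi : IntervalIntegrable (fun u : ℝ => Real.log ‖A.1 (1 / 2 + u * I)‖) volume t (t + h)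
  · have h1 := intervalIntegral.integral_mono_on (by linarith) hi
      (intervalIntegrable_const (c := D + (1 / 4 - δ') * Real.log (A.2 t))) hpt
    refine h1.trans (le_of_eq ?_)
    rw [intervalIntegral.integral_const, smul_eq_mul]
    ring
  · rw [intervalIntegral.integral_undef hi]
    have : 0 ≤ h * (D + (1 / 4 - δ') * Real.log (A.2 t)) := mul_nonneg hh.le hR
    nlinarith

theorem sets_of_all (hS : Good c S) {a r : ℝ} (hr0 : 0 ≤ r) (hr1 : r ≤ 1 / 2 - a) (ha : 0 < a)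
    (hs : All S a) : ∃ δ c0 H Q0 : ℝ, 0 < δ ∧ 0 < c0 ∧ 0 < H ∧ ∀ A ∈ S, ∀ T : ℝ, Q0 ≤ A.2 T →
      ENNReal.ofReal c0 ≤
        volume {t : ℝ | |t - T| ≤ H ∧ ‖A.1 (1 / 2 + t * I + r)‖ ≤ A.2 T ^ (1 / 4 - r / 2 - δ)} := by
  obtain ⟨δ, C, hδ, hC, H1⟩ := hs
  obtain ⟨δ', hδ'⟩ : ∃ δ' : ℝ, δ' = min δ (a / 2) := ⟨_, rfl⟩
  have hδ'0 : 0 < δ' := by rw [hδ']; exact lt_min hδ (by positivity)
  have hδ'1 : δ' ≤ δ := by rw [hδ']; exact min_le_left _ _
  have hδ'2 : δ' ≤ a / 2 := by rw [hδ']; exact min_le_right _ _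
  obtain ⟨Q0, hQ0, HQ⟩ := absorb (C := C * Real.exp c) (δ := δ' / 2) (by positivity)
  refine ⟨δ' / 2, 1, 1, Q0, by positivity, one_pos, one_pos, fun A hA T hT => ?_⟩
  have h1 := hS.one A hA T
  have hq0 : 0 < A.2 T := by linarith
  have hsub : Icc (T - 1) (T + 1) ⊆
      {t : ℝ | |t - T| ≤ 1 ∧ ‖A.1 (1 / 2 + t * I + r)‖ ≤ A.2 T ^ (1 / 4 - r / 2 - δ' / 2)} := by
    intro t ht
    have hv : |t - T| ≤ 1 := abs_le.2 ⟨by linarith [ht.1], by linarith [ht.2]⟩
    refine ⟨hv, (H1 A hA t r hr0 hr1).trans ?_⟩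
    have h2 := hS.one A hA t
    have h3 : A.2 t ^ (1 / 4 - r / 2 - δ) ≤ A.2 t ^ (1 / 4 - r / 2 - δ') :=
      Real.rpow_le_rpow_of_exponent_le h2 (by linarith)
    have h4 := move_pow hS hA T (t - T) (e := 1 / 4 - r / 2 - δ') (by linarith) (by linarith)
    rw [add_sub_cancel] at h4
    have h5 : Real.exp (c * |t - T|) ≤ Real.exp c := by
      apply Real.exp_le_exp.2
      exact mul_le_of_le_one_right hS.c_nonneg hv
    have h6 : 0 ≤ A.2 T ^ (1 / 4 - r / 2 - δ') := Real.rpow_nonneg hq0.le _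
    calc C * A.2 t ^ (1 / 4 - r / 2 - δ)
        ≤ C * (Real.exp c * A.2 T ^ (1 / 4 - r / 2 - δ')) := by
          refine mul_le_mul_of_nonneg_left (h3.trans (h4.trans ?_)) hC.le
          exact mul_le_mul_of_nonneg_right h5 h6
      _ = (C * Real.exp c) * A.2 T ^ (1 / 4 - r / 2 - δ') := by ring
      _ ≤ A.2 T ^ (δ' / 2) * A.2 T ^ (1 / 4 - r / 2 - δ') := mul_le_mul_of_nonneg_right (HQ _ hT) h6
      _ = _ := by rw [← Real.rpow_add hq0]; congr 1; ring
  refine le_trans ?_ (measure_mono hsub)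
  rw [Real.volume_Icc]
  exact ENNReal.ofReal_le_ofReal (by linarith)

end Pool.Agent.V7H83.SC
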