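import Pool.Agent.V7H83.SC.S6

/-!
# Criteria for subconvexity: products of shifted values
-/

set_option autoImplicit false

open Complex Set MeasureTheory Filter Topology
open scoped ComplexConjugate ENNReal

namespace Pool.Agent.V7H83.SC

open Pool.Agent.V7H83.LG

variable {c : ℝ} {S : Set ((ℂ → ℂ) × (ℝ → ℝ))} {k : ℕ}

/-- the bound for the products of shifted values -/
def OnProd (S : Set ((ℂ → ℂ) × (ℝ → ℝ))) (z : Fin k → ℂ) (w : Fin k → ℝ) : Prop := ∃ δ C : ℝ, 0 < δ ∧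
  ∀ A ∈ S, ∀ t : ℝ, ∏ j, ‖A.1 (1 / 2 + t * I + z j)‖ ^ w j ≤
    C * A.2 t ^ (∑ j, w j * (1 / 4 - (z j).re / 2) - δ)

theorem prod_of_all (hS : Good c S) (hk : 0 < k) {z : Fin k → ℂ} {w : Fin k → ℝ} (hw : ∀ j, 0 < w j) {a : ℝ}
    (ha : 0 < a) (hz : ∀ j, 0 ≤ (z j).re ∧ (z j).re ≤ 1 / 2 - a) (hs : All S a) : OnProd S z w := by
  obtain ⟨δ, C, hδ, hC, H1⟩ := hs
  haveI : Nonempty (Fin k) := ⟨⟨0, hk⟩⟩
  obtain ⟨W, hW⟩ : ∃ W : ℝ, W = ∑ j, w j := ⟨_, rfl⟩
  have hW0 : 0 < W := by rw [hW]; exact Finset.sum_pos (fun j _ => hw j) Finset.univ_nonempty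
  obtain ⟨δ', hδ'⟩ : ∃ δ' : ℝ, δ' = min δ (a / 2) := ⟨_, rfl⟩
  have hδ'0 : 0 < δ' := by rw [hδ']; exact lt_min hδ (by positivity)
  have hδ'1 : δ' ≤ δ := by rw [hδ']; exact min_le_left _ _
  have hδ'2 : δ' ≤ a / 2 := by rw [hδ']; exact min_le_right _ _
  refine ⟨W * δ', ∏ j, (C * Real.exp (c * |(z j).im|)) ^ w j, by positivity, fun A hA t => ?_⟩
  have hQt := hS.one A hA t
  have hQt0 : 0 < A.2 t := by linarith
  have e1 : A.2 t ^ (∑ j, w j * (1 / 4 - (z j).re / 2) - W * δ') =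
      ∏ j, (A.2 t ^ (1 / 4 - (z j).re / 2 - δ')) ^ w j := by
    have : ∀ j ∈ Finset.univ, (A.2 t ^ (1 / 4 - (z j).re / 2 - δ')) ^ w j =
        A.2 t ^ (w j * (1 / 4 - (z j).re / 2 - δ')) := fun j _ => by
      rw [← Real.rpow_mul hQt0.le, mul_comm]
    rw [Finset.prod_congr rfl this, ← Real.rpow_sum_of_pos hQt0]
    congr 1
    rw [hW, Finset.sum_mul, ← Finset.sum_sub_distrib]
    exact Finset.sum_congr rfl fun j _ => by ring
  rw [e1, ← Finset.prod_mul_distrib]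
  refine Finset.prod_le_prod (fun j _ => Real.rpow_nonneg (norm_nonneg _) _) fun j _ => ?_
  rw [← Real.mul_rpow (by positivity) (Real.rpow_nonneg hQt0.le _)]
  refine Real.rpow_le_rpow (norm_nonneg _) ?_ (hw j).le
  have e : (1 / 2 + t * I + z j : ℂ) = 1 / 2 + ((t + (z j).im : ℝ) : ℂ) * I + (z j).re := by
    apply Complex.ext <;> simp
  rw [e]
  refine (H1 A hA (t + (z j).im) (z j).re (hz j).1 (hz j).2).trans ?_
  have h1 := hS.one A hA (t + (z j).im)
  have h2 : A.2 (t + (z j).im) ^ (1 / 4 - (z j).re / 2 - δ) ≤ A.2 (t + (z j).im) ^ (1 / 4 - (z j).re / 2 - δ') :=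
    Real.rpow_le_rpow_of_exponent_le h1 (by linarith)
  have h3 := move_pow hS hA t (z j).im (e := 1 / 4 - (z j).re / 2 - δ') (by linarith [(hz j).2])
    (by linarith [(hz j).1])
  rw [mul_assoc]
  exact mul_le_mul_of_nonneg_left (h2.trans h3) hC.le

theorem sets_of_prod (hS : Good c S) (hk : 0 < k) {z : Fin k → ℂ} {w : Fin k → ℝ} (hw : ∀ j, 0 < w j) {a : ℝ}
    (ha : 0 < a) (ha' : a ≤ 1 / 2) (hz : ∀ j, 0 ≤ (z j).re ∧ (z j).re ≤ 1 / 2 - a) (hs : OnProd S z w) :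
    OnSets S := by
  obtain ⟨δ, C, hδ, H1⟩ := hs
  haveI : Nonempty (Fin k) := ⟨⟨0, hk⟩⟩
  have hk' : (0 : ℝ) < k := by exact_mod_cast hk
  obtain ⟨W, hW⟩ : ∃ W : ℝ, W = ∑ j, w j := ⟨_, rfl⟩
  have hW0 : 0 < W := by rw [hW]; exact Finset.sum_pos (fun j _ => hw j) Finset.univ_nonempty
  obtain ⟨δ', hδ'⟩ : ∃ δ' : ℝ, δ' = min δ (W * (a / 2)) := ⟨_, rfl⟩
  have hδ'0 : 0 < δ' := by rw [hδ']; exact lt_min hδ (by positivity)
  have hδ'1 : δ' ≤ δ := by rw [hδ']; exact min_le_left _ _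
  have hδ'2 : δ' / W ≤ a / 2 := by
    rw [div_le_iff₀ hW0, hδ', mul_comm]; exact min_le_right _ _
  have hδW : 0 < δ' / W := by positivity
  obtain ⟨b, hb⟩ : ∃ b : ℝ, b = ∑ j, |(z j).im| := ⟨_, rfl⟩
  have hb0 : 0 ≤ b := by rw [hb]; exact Finset.sum_nonneg fun j _ => abs_nonneg _
  have hbj : ∀ j, |(z j).im| ≤ b := fun j => by
    rw [hb]
    exact Finset.single_le_sum (f := fun j => |(z j).im|) (fun i _ => abs_nonneg _) (Finset.mem_univ j)
  obtain ⟨M, hM⟩ : ∃ M : ℝ, M = max C 1 := ⟨_, rfl⟩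
  have hM1 : 1 ≤ M := by rw [hM]; exact le_max_right _ _
  have hCM : C ≤ M := by rw [hM]; exact le_max_left _ _
  obtain ⟨Q0, hQ0, HQ⟩ := absorb (C := M ^ (1 / W) * Real.exp c) (δ := δ' / W / 2) (by positivity)
  refine ⟨a, δ' / W / 2, 1 / k, 1 + b, Q0, ha, ha', by positivity, by positivity, by positivity,
    fun A hA T hT => ?_⟩
  have hQT := hS.one A hA T
  have hq0 : 0 < A.2 T := by linarith
  have hF := hS.cont A hA
  -- the sets
  obtain ⟨E, hE⟩ : ∃ E : Fin k → Set ℝ, E = fun j => {t : ℝ | |t - T| ≤ 1 ∧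
    ‖A.1 (1 / 2 + t * I + z j)‖ ≤ A.2 T ^ (1 / 4 - (z j).re / 2 - δ' / W / 2)} := ⟨_, rfl⟩
  have hcov : Icc (T - 1) (T + 1) ⊆ ⋃ j, E j := by
    intro t ht
    have hv : |t - T| ≤ 1 := abs_le.2 ⟨by linarith [ht.1], by linarith [ht.2]⟩
    have hQt := hS.one A hA t
    have hQt0 : 0 < A.2 t := by linarith
    by_contra hcon
    rw [mem_iUnion] at hcon
    push Not at hcon
    have h1 : ∀ j, M ^ (1 / W) * A.2 t ^ (1 / 4 - (z j).re / 2 - δ' / W) < ‖A.1 (1 / 2 + t * I + z j)‖ := by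
      intro j
      have h2 : ¬ ‖A.1 (1 / 2 + t * I + z j)‖ ≤ A.2 T ^ (1 / 4 - (z j).re / 2 - δ' / W / 2) := by
        intro h3
        refine hcon j ?_
        rw [hE]
        exact ⟨hv, h3⟩
      push Not at h2
      refine lt_of_le_of_lt ?_ h2
      have h4 := move_pow hS hA T (t - T) (e := 1 / 4 - (z j).re / 2 - δ' / W)
        (by linarith [(hz j).2]) (by linarith [(hz j).1])
      rw [add_sub_cancel] at h4
      have h5 : Real.exp (c * |t - T|) ≤ Real.exp c := by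
        apply Real.exp_le_exp.2
        exact mul_le_of_le_one_right hS.c_nonneg hv
      have h6 : 0 ≤ A.2 T ^ (1 / 4 - (z j).re / 2 - δ' / W) := Real.rpow_nonneg hq0.le _
      calc M ^ (1 / W) * A.2 t ^ (1 / 4 - (z j).re / 2 - δ' / W)
          ≤ M ^ (1 / W) * (Real.exp c * A.2 T ^ (1 / 4 - (z j).re / 2 - δ' / W)) := by
            refine mul_le_mul_of_nonneg_left (h4.trans ?_) (Real.rpow_nonneg (by linarith) _)
            exact mul_le_mul_of_nonneg_right h5 h6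
        _ = (M ^ (1 / W) * Real.exp c) * A.2 T ^ (1 / 4 - (z j).re / 2 - δ' / W) := by ring
        _ ≤ A.2 T ^ (δ' / W / 2) * A.2 T ^ (1 / 4 - (z j).re / 2 - δ' / W) :=
            mul_le_mul_of_nonneg_right (HQ _ hT) h6
        _ = _ := by rw [← Real.rpow_add hq0]; congr 1; ring
    have h7 : ∏ j, (M ^ (1 / W) * A.2 t ^ (1 / 4 - (z j).re / 2 - δ' / W)) ^ w j <
        ∏ j, ‖A.1 (1 / 2 + t * I + z j)‖ ^ w j := by
      refine Finset.prod_lt_prod_of_nonempty (fun j _ => ?_) (fun j _ => ?_) Finset.univ_nonempty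
      · have : 0 < M ^ (1 / W) := Real.rpow_pos_of_pos (by linarith) _
        have := Real.rpow_pos_of_pos hQt0 (1 / 4 - (z j).re / 2 - δ' / W)
        positivity
      · refine Real.rpow_lt_rpow ?_ (h1 j) (hw j)
        exact mul_nonneg (Real.rpow_nonneg (by linarith) _) (Real.rpow_nonneg hQt0.le _)
    have h8 : ∏ j, (M ^ (1 / W) * A.2 t ^ (1 / 4 - (z j).re / 2 - δ' / W)) ^ w j =
        M * A.2 t ^ (∑ j, w j * (1 / 4 - (z j).re / 2) - δ') := by
      have h9 : ∀ j ∈ Finset.univ, (M ^ (1 / W) * A.2 t ^ (1 / 4 - (z j).re / 2 - δ' / W)) ^ w j =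
          M ^ (w j / W) * A.2 t ^ (w j * (1 / 4 - (z j).re / 2 - δ' / W)) := fun j _ => by
        rw [Real.mul_rpow (Real.rpow_nonneg (by linarith) _) (Real.rpow_nonneg hQt0.le _),
          ← Real.rpow_mul (by linarith), ← Real.rpow_mul hQt0.le]
        congr 2 <;> ring
      rw [Finset.prod_congr rfl h9, Finset.prod_mul_distrib, ← Real.rpow_sum_of_pos (by linarith),
        ← Real.rpow_sum_of_pos hQt0, ← Finset.sum_div, ← hW, div_self hW0.ne', Real.rpow_one]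
      congr 2
      have h10 : ∀ j ∈ Finset.univ, w j * (1 / 4 - (z j).re / 2 - δ' / W) =
          w j * (1 / 4 - (z j).re / 2) - w j * (δ' / W) := fun j _ => by ring
      rw [Finset.sum_congr rfl h10, Finset.sum_sub_distrib, ← Finset.sum_mul, ← hW]
      field_simp
    have h11 : ∏ j, ‖A.1 (1 / 2 + t * I + z j)‖ ^ w j ≤ M * A.2 t ^ (∑ j, w j * (1 / 4 - (z j).re / 2) - δ') := by
      refine (H1 A hA t).trans (mul_le_mul hCM ?_ (Real.rpow_nonneg hQt0.le _) (by linarith))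
      exact Real.rpow_le_rpow_of_exponent_le hQt (by linarith)
    rw [h8] at h7
    linarith
  have hpig : ∃ j, ENNReal.ofReal (1 / k) ≤ volume (E j) := by
    by_contra hcon
    push Not at hcon
    have h1 : volume (Icc (T - 1) (T + 1)) ≤ ∑ j, volume (E j) :=
      (measure_mono hcov).trans (measure_iUnion_fintype_le _ _)
    have h2 : ∑ j, volume (E j) ≤ ∑ _j : Fin k, ENNReal.ofReal (1 / k) := Finset.sum_le_sum fun j _ => (hcon j).le
    rw [Finset.sum_const, Finset.card_univ, Fintype.card_fin, nsmul_eq_mul] at h2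
    have h3 : (k : ℝ≥0∞) * ENNReal.ofReal (1 / k) = 1 := by
      rw [← ENNReal.ofReal_natCast, ← ENNReal.ofReal_mul hk'.le]
      have : (k : ℝ) * (1 / k) = 1 := by field_simp
      rw [this, ENNReal.ofReal_one]
    rw [h3] at h2
    have h4 := h1.trans h2
    rw [Real.volume_Icc, ← ENNReal.ofReal_one, ENNReal.ofReal_le_ofReal_iff zero_le_one] at h4
    linarith
  obtain ⟨j, hj⟩ := hpig
  refine ⟨(z j).re, (hz j).1, (hz j).2, hj.trans ?_⟩
  have hEm : MeasurableSet (E j) := by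
    rw [hE]
    have h1 : Continuous fun t : ℝ => |t - T| := by fun_prop
    have h2 : Continuous fun t : ℝ => ‖A.1 (1 / 2 + t * I + z j)‖ := by fun_prop
    exact (measurableSet_le h1.measurable measurable_const).inter
      (measurableSet_le h2.measurable measurable_const)
  have hpre : volume ((fun t : ℝ => t + -(z j).im) ⁻¹' E j) = volume (E j) :=
    (measurePreserving_add_right volume (-(z j).im)).measure_preimage hEm.nullMeasurableSet
  rw [← hpre]
  refine measure_mono fun t ht => ?_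
  rw [mem_preimage, hE] at ht
  obtain ⟨h1, h2⟩ := ht
  refine ⟨?_, ?_⟩
  · have h3 := hbj j
    have h4 : |t - T| ≤ |t + -(z j).im - T| + |(z j).im| := by
      have := abs_add_le (t + -(z j).im - T) (z j).im
      have e : t + -(z j).im - T + (z j).im = t - T := by ring
      rwa [e] at this
    linarith
  · have e : (1 / 2 + ((t + -(z j).im : ℝ) : ℂ) * I + z j : ℂ) = 1 / 2 + t * I + (z j).re := by
      apply Complex.ext <;> simp
    rwa [e] at h2

/-- a common distance from the edge -/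
lemma common (hk : 0 < k) {z : Fin k → ℂ} (hz : ∀ j, 0 ≤ (z j).re ∧ (z j).re < 1 / 2) :
    ∃ a : ℝ, 0 < a ∧ a ≤ 1 / 2 ∧ ∀ j, 0 ≤ (z j).re ∧ (z j).re ≤ 1 / 2 - a := by
  haveI : Nonempty (Fin k) := ⟨⟨0, hk⟩⟩
  obtain ⟨j0, hj0⟩ := Finite.exists_min fun j => 1 / 2 - (z j).re
  refine ⟨1 / 2 - (z j0).re, by linarith [(hz j0).2], by linarith [(hz j0).1], fun j => ⟨(hz j).1, ?_⟩⟩
  linarith [hj0 j]

end Pool.Agent.V7H83.SC
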